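import Pool.Agent.MP_e70dc0_co.K56.Defs

/-! Row CIR of campaign h56k: the sixth moment. -/

namespace Pool.Agent.K56

open Finset Filter Topology

-- BEGIN
theorem cir_nat {A : Type} [CommRing A] [Algebra ℝ A] (E : A →ₗ[ℝ] ℝ) (n : ℕ) (f : A) :
    E ((n : A) * f) = (n : ℝ) * E f := by
  rw [← nsmul_eq_mul, map_nsmul, nsmul_eq_mul]

theorem cir_row (hN : NULL_s) (hD : DEG_s) : CIR_s := by
  intro A _ _ E q τ h d w hK
  obtain ⟨h2, h4, h0, -, -⟩ := hD A E q τ h d w hK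
  obtain ⟨⟨-, f1, -⟩, -, ⟨f31, f32, f33, f34⟩, f4⟩ := hK.qf
  obtain ⟨f41, f42⟩ := f4 h2
  have ha := hK.six.1
  have n2 : ∀ f : A, E (2 * f) = 2 * E f := fun f => by simpa using cir_nat E 2 f
  have n9 : ∀ f : A, E (9 * f) = 9 * E f := fun f => by simpa using cir_nat E 9 f
  have n24 : ∀ f : A, E (24 * f) = 24 * E f := fun f => by simpa using cir_nat E 24 f
  have n16 : ∀ f : A, E (16 * f) = 16 * E f := fun f => by simpa using cir_nat E 16 f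
  have hq : ∀ i j k : ℕ, E (((τ + d) ^ 2 + h ^ 2) ^ i * ((τ - d) ^ 2 + h ^ 2) ^ j *
      ((τ + d) * (τ - d) + h * h) ^ k) = q i j k := ha
  generalize hX : (τ + d) ^ 2 + h ^ 2 = X at hq
  generalize hY : (τ - d) ^ 2 + h ^ 2 = Y at hq
  generalize hB : (τ + d) * (τ - d) + h * h = B at hq
  have up : q 3 1 0 - 2 * q 2 2 0 + q 1 3 0 - q 2 0 2 + 2 * q 1 1 2 - q 0 2 2 = 0 := by
    have e : X ^ 3 * Y ^ 1 * B ^ 0 - 2 * (X ^ 2 * Y ^ 2 * B ^ 0) + X ^ 1 * Y ^ 3 * B ^ 0 -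
        X ^ 2 * Y ^ 0 * B ^ 2 + 2 * (X ^ 1 * Y ^ 1 * B ^ 2) - X ^ 0 * Y ^ 2 * B ^ 2 =
        h * τ * (64 * (h * τ * d ^ 4)) := by
      rw [← hX, ← hY, ← hB]; ring
    have z := hN A E hK.fn (h * τ) (64 * (h * τ * d ^ 4)) h0
    rw [← e, map_sub, map_add, map_sub, map_add, map_sub, n2, n2, hq, hq, hq, hq, hq, hq] at z
    exact z
  have lo : 0 ≤ 9 * q 3 0 0 - 24 * q 2 0 0 + 16 * q 1 0 0 := by
    have e : 9 * (X ^ 3 * Y ^ 0 * B ^ 0) - 24 * (X ^ 2 * Y ^ 0 * B ^ 0) +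
        16 * (X ^ 1 * Y ^ 0 * B ^ 0) =
        (τ + d) * (3 * X - 4) * ((τ + d) * (3 * X - 4)) + h * (3 * X - 4) * (h * (3 * X - 4)) := by
      rw [← hX]; ring
    have z : 0 ≤ E ((τ + d) * (3 * X - 4) * ((τ + d) * (3 * X - 4)) +
        h * (3 * X - 4) * (h * (3 * X - 4))) := by
      rw [map_add]
      exact add_nonneg (hK.fn.2 _) (hK.fn.2 _)
    rw [← e, map_add, map_sub, n9, n24, n16, hq, hq, hq] at z
    exact z
  rw [h4] at f31 f32 lo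
  rw [f1] at lo
  rw [f31, f33, f34, f41, f42] at up
  linarith

end Pool.Agent.K56
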