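import Pool.Agent.MP_e70dc0_co.K56.Defs

namespace Pool.Agent.K56

open Finset Filter Topology

theorem cnt_off {α : Type} [DecidableEq α] (S : Finset α) :
    (#S.offDiag : ℝ) = (#S : ℝ) * #S - #S := by
  rw [offDiag_card, Nat.cast_sub (Nat.le_mul_self _), Nat.cast_mul]

theorem cnt_q1 (s : ℕ) : 4 * (s : ℝ) - 6 ≤ (s : ℝ) * s - s := by
  rcases le_or_gt s 2 with h | h
  · have h1 : (s : ℝ) ≤ 2 := by exact_mod_cast h
    nlinarith
  · have h1 : (3 : ℝ) ≤ s := by exact_mod_cast h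
    nlinarith

theorem cnt_q2 (s : ℕ) : 2 * (s : ℝ) - 2 ≤ (s : ℝ) * s - s := by
  rcases le_or_gt s 1 with h | h
  · have h1 : (s : ℝ) ≤ 1 := by exact_mod_cast h
    nlinarith
  · have h1 : (2 : ℝ) ≤ s := by exact_mod_cast h
    nlinarith

theorem cnt_cls {α β : Type} [DecidableEq α] [DecidableEq β] (S : Finset α) (f : α → β) :
    4 * (#S : ℝ) - 6 * #(S.image f) ≤ #{p ∈ S.offDiag | f p.1 = f p.2} := by
  have h1 : #{p ∈ S.offDiag | f p.1 = f p.2} =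
      ∑ r ∈ S.image f, #({a ∈ S | f a = r} : Finset α).offDiag := by
    rw [card_eq_sum_card_fiberwise (f := fun p : α × α => f p.1) (t := S.image f)
      (fun p hp => by
        have hp' := (mem_offDiag.1 (mem_filter.1 (mem_coe.1 hp)).1).1
        exact mem_coe.2 (mem_image_of_mem f hp'))]
    refine sum_congr rfl fun r _ => congrArg card ?_
    ext p
    simp only [mem_filter, mem_offDiag]
    constructor
    · rintro ⟨⟨⟨a, b, c⟩, d⟩, e⟩
      exact ⟨⟨a, e⟩, ⟨b, d ▸ e⟩, c⟩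
    · rintro ⟨⟨a, e⟩, ⟨b, d⟩, c⟩
      exact ⟨⟨⟨a, b, c⟩, e.trans d.symm⟩, e⟩
  have h2 : (#S : ℝ) = ∑ r ∈ S.image f, (#{a ∈ S | f a = r} : ℝ) := by
    exact_mod_cast card_eq_sum_card_image f S
  rw [h1, h2, Nat.cast_sum, mul_sum, mul_comm (6 : ℝ), ← nsmul_eq_mul, ← sum_const,
    ← sum_sub_distrib]
  exact sum_le_sum fun r _ => by rw [cnt_off]; exact cnt_q1 _

theorem cnt_kt (P : Finset ℂ) :
    ∑ e ∈ P.offDiag, #({a ∈ P | dist a e.1 = dist a e.2} : Finset ℂ).offDiag ≤ #(KT P) := by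
  rw [← card_sigma]
  refine card_le_card_of_injOn (fun x => (x.2.1, x.2.2, x.1.1, x.1.2)) ?_ ?_
  · intro x hx
    have hx' := mem_sigma.1 (mem_coe.1 hx)
    obtain ⟨h1, h2⟩ := hx'
    rw [mem_offDiag] at h1 h2
    simp only [mem_filter] at h2
    refine mem_coe.2 ?_
    unfold KT
    simp only [mem_filter, mem_product]
    exact ⟨⟨h2.1.1, h2.2.1.1, h1.1, h1.2.1⟩, h2.2.2, h1.2.2, h2.1.2, h2.2.1.2⟩
  · rintro ⟨⟨a, b⟩, ⟨c, d⟩⟩ _ ⟨⟨a', b'⟩, ⟨c', d'⟩⟩ _ h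
    simp only [Prod.mk.injEq] at h
    obtain ⟨rfl, rfl, rfl, rfl⟩ := h
    rfl

theorem cnt_row : CNT_s := by
  intro P c _ hP
  have h1 : ∀ a ∈ P, 4 * ((#P : ℝ) - 1) - 6 * #((P.erase a).image (dist a)) ≤
      (#{e ∈ P.offDiag | dist a e.1 = dist a e.2} : ℝ) := by
    intro a ha
    have h := cnt_cls (P.erase a) (dist a)
    have hc : (#(P.erase a) : ℝ) = #P - 1 := by
      rw [card_erase_of_mem ha, Nat.cast_sub (card_pos.2 ⟨a, ha⟩), Nat.cast_one]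
    rw [hc] at h
    refine h.trans ?_
    exact_mod_cast card_le_card (filter_subset_filter _ (offDiag_mono (erase_subset a P)))
  have h2 : ∑ a ∈ P, (#{e ∈ P.offDiag | dist a e.1 = dist a e.2} : ℝ) =
      ∑ e ∈ P.offDiag, (#{a ∈ P | dist a e.1 = dist a e.2} : ℝ) := by
    simp only [card_filter, Nat.cast_sum]
    exact sum_comm
  have h3 := sum_le_sum h1
  rw [h2, sum_sub_distrib, sum_const, nsmul_eq_mul, ← mul_sum] at h3
  have h4 : ∑ e ∈ P.offDiag, (2 * (#{a ∈ P | dist a e.1 = dist a e.2} : ℝ) - 2) ≤ #(KT P) := by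
    refine le_trans (sum_le_sum fun e _ => ?_) (by exact_mod_cast cnt_kt P :
      ∑ e ∈ P.offDiag, (#({a ∈ P | dist a e.1 = dist a e.2} : Finset ℂ).offDiag : ℝ) ≤ _)
    rw [cnt_off]
    exact cnt_q2 _
  rw [sum_sub_distrib, sum_const, nsmul_eq_mul, ← mul_sum, cnt_off] at h4
  have h0 : (0 : ℝ) ≤ #P := Nat.cast_nonneg _
  nlinarith

end Pool.Agent.K56
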