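import Pool.Agent.MP_e70dc0_co.K56.Defs

namespace Pool.Agent.K56

theorem deg_row (hN : NULL_s) : DEG_s := by
  intro A _ _ E q τ h d w H
  obtain ⟨ha, -, c1, c2, c3, c4⟩ := H.six
  obtain ⟨-, -, -, f101, f011, f110⟩ := H.qf.f1
  obtain ⟨fk, -, f020, -⟩ := H.qf.f2
  have s4 := H.sy 2 0 0
  have s6 := H.sy 3 0 0
  have s2 := H.sy 1 0 1
  have s5 := H.sy 2 0 1
  have a200 := ha 2 0 0
  have a020 := ha 0 2 0
  have a110 := ha 1 1 0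
  have a002 := ha 0 0 2
  have a101 := ha 1 0 1
  have a011 := ha 0 1 1
  have x1 := c1 1 0 1
  have x2 := c2 1 0 1
  have x3 := c3 1 0 1
  have x4 := c4 1 0 1
  have y1 := c1 0 0 2
  have y2 := c2 0 0 2
  have y3 := c3 0 0 2
  have y4 := c4 0 0 2
  have z1 := c1 0 0 3
  have z2 := c2 0 0 3
  have z3 := c3 0 0 3
  have z4 := c4 0 0 3
  simp only [pow_zero, mul_one, one_mul, pow_one] at s4 s6 s2 s5 a200 a020 a110 a002 a101 a011 x1 x2 x3 x4 y1 y2 y3 y4 z1 z2 z3 z4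
  have L : ∀ {f g : A}, f = g → E f = E g := fun e => congrArg E e
  -- (X - Y)^2
  have i1 := L (f := ((τ + d) ^ 2 + h ^ 2) ^ 2 + ((τ - d) ^ 2 + h ^ 2) ^ 2 -
      (2 : ℝ) • (((τ + d) ^ 2 + h ^ 2) * ((τ - d) ^ 2 + h ^ 2))) (g := (16 : ℝ) • (τ ^ 2 * d ^ 2))
    (by simp only [Algebra.smul_def, map_ofNat]; ring)
  -- XY - P^2
  have i2 := L (f := ((τ + d) ^ 2 + h ^ 2) * ((τ - d) ^ 2 + h ^ 2) -
      ((τ + d) * (τ - d) + h * h) ^ 2) (g := (4 : ℝ) • (h ^ 2 * d ^ 2))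
    (by simp only [Algebra.smul_def, map_ofNat]; ring)
  -- cross X P
  have i3 := L (f := ((τ + d) ^ 2 + h ^ 2) * ((τ + d) * -τ + h * (h + w)) +
      ((τ + d) ^ 2 + h ^ 2) * ((τ + d) * -τ + h * (h - w)) +
      ((τ - d) ^ 2 + h ^ 2) * ((τ - d) * -τ + h * (h + w)) +
      ((τ - d) ^ 2 + h ^ 2) * ((τ - d) * -τ + h * (h - w)))
    (g := (4 : ℝ) • (h ^ 2) ^ 2 - (4 : ℝ) • (τ ^ 2) ^ 2 + (4 : ℝ) • (h ^ 2 * d ^ 2) -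
      (12 : ℝ) • (τ ^ 2 * d ^ 2))
    (by simp only [Algebra.smul_def, map_ofNat]; ring)
  -- cross P^2
  have i4 := L (f := ((τ + d) * -τ + h * (h + w)) ^ 2 + ((τ + d) * -τ + h * (h - w)) ^ 2 +
      ((τ - d) * -τ + h * (h + w)) ^ 2 + ((τ - d) * -τ + h * (h - w)) ^ 2)
    (g := (4 : ℝ) • (h ^ 2) ^ 2 + (4 : ℝ) • (τ ^ 2) ^ 2 - (8 : ℝ) • (h * τ * (h * τ)) +
      (4 : ℝ) • (τ ^ 2 * d ^ 2) + (4 : ℝ) • (h ^ 2 * w ^ 2))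
    (by simp only [Algebra.smul_def, map_ofNat]; ring)
  -- the square of the midpoint
  have i5 := L (f := ((τ + d) ^ 2 + h ^ 2) ^ 2 + ((τ - d) ^ 2 + h ^ 2) ^ 2 +
      (2 : ℝ) • (((τ + d) ^ 2 + h ^ 2) * ((τ - d) ^ 2 + h ^ 2)) +
      (4 : ℝ) • ((τ + d) * (τ - d) + h * h) ^ 2 +
      (4 : ℝ) • (((τ + d) ^ 2 + h ^ 2) * ((τ + d) * (τ - d) + h * h)) +
      (4 : ℝ) • (((τ - d) ^ 2 + h ^ 2) * ((τ + d) * (τ - d) + h * h)))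
    (g := (16 : ℝ) • (h ^ 2) ^ 2 + (16 : ℝ) • (τ ^ 2) ^ 2 + (32 : ℝ) • (h * τ * (h * τ)))
    (by simp only [Algebra.smul_def, map_ofNat]; ring)
  -- cross P^3
  have i6 := L (f := ((τ + d) * -τ + h * (h + w)) ^ 3 + ((τ + d) * -τ + h * (h - w)) ^ 3 +
      ((τ - d) * -τ + h * (h + w)) ^ 3 + ((τ - d) * -τ + h * (h - w)) ^ 3)
    (g := (4 : ℝ) • (h ^ 2) ^ 3 - (4 : ℝ) • (τ ^ 2) ^ 3 + (12 : ℝ) • ((h ^ 2) ^ 2 * w ^ 2) -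
      (12 : ℝ) • ((τ ^ 2) ^ 2 * d ^ 2) +
      h * τ * (12 * (h * τ) * (τ ^ 2 - h ^ 2 + d ^ 2 - w ^ 2)))
    (by simp only [Algebra.smul_def, map_ofNat]; ring)
  simp only [map_add, map_sub, map_smul, smul_eq_mul] at i1 i2 i3 i4 i5 i6
  have p := H.fn.2 (h * τ)
  have hz : E (h * τ * (h * τ)) = 0 := by linarith
  have n := hN A E H.fn (h * τ) (12 * (h * τ) * (τ ^ 2 - h ^ 2 + d ^ 2 - w ^ 2)) hz
  refine ⟨by linarith, by linarith, hz, by linarith, by linarith⟩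

end Pool.Agent.K56
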