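import Mathlib

/-! Statements of the rows of campaign h56k: pinned distances in general position. -/

namespace Pool.Agent.K56

open Finset Filter Topology

noncomputable section

/-! ### Finite kite systems -/

abbrev K4 := ℂ × ℂ × ℂ × ℂ

/-- `(a₁, a₂, b, b')`: both `aᵢ` are equidistant from `b` and `b'`. -/
def IsK (k : K4) : Prop := k.1 ≠ k.2.1 ∧ k.2.2.1 ≠ k.2.2.2 ∧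
  dist k.1 k.2.2.1 = dist k.1 k.2.2.2 ∧ dist k.2.1 k.2.2.1 = dist k.2.1 k.2.2.2

/-- The six projections to pairs. -/
def pr (i : Fin 6) (k : K4) : ℂ × ℂ :=
  ![(k.1, k.2.1), (k.2.2.1, k.2.2.2), (k.1, k.2.2.1), (k.1, k.2.2.2), (k.2.1, k.2.2.1),
    (k.2.1, k.2.2.2)] i

structure KS (Q : Finset ℂ) (K : Finset K4) (ε : ℝ) : Prop where
  ne : Q.Nonempty
  mem : ∀ k ∈ K, k.1 ∈ Q ∧ k.2.1 ∈ Q ∧ k.2.2.1 ∈ Q ∧ k.2.2.2 ∈ Q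
  kite : ∀ k ∈ K, IsK k
  fib : ∀ (i : Fin 6) (e : ℂ × ℂ), #{k ∈ K | pr i k = e} ≤ 2
  big : (2 - ε) * (#Q : ℝ) ^ 2 ≤ #K

def GP (P : Finset ℂ) : Prop :=
  (∀ x ∈ P, ∀ y ∈ P, ∀ z ∈ P, x ≠ y → x ≠ z → y ≠ z → ¬Collinear ℝ {x, y, z}) ∧
    ∀ (z : ℂ) (r : ℝ), #{x ∈ P | dist x z = r} ≤ 3

open Classical in
def KT (P : Finset ℂ) : Finset K4 := {k ∈ P ×ˢ P ×ˢ P ×ˢ P | IsK k}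

def FIB_s : Prop := ∀ P : Finset ℂ, GP P → ∀ (i : Fin 6) (e : ℂ × ℂ), #{k ∈ KT P | pr i k = e} ≤ 2

def CNT_s : Prop := ∀ (P : Finset ℂ) (c : ℝ), GP P →
  (∑ a ∈ P, (#((P.erase a).image (dist a)) : ℝ)) ≤ (1 / 3 + c) * (#P : ℝ) ^ 2 →
    (2 - 12 * c) * (#P : ℝ) ^ 2 - 8 * #P ≤ #(KT P)

/-- The proportion of points outside a disc. -/
def TT (Q : Finset ℂ) (z : ℂ) (r : ℝ) : ℝ := (#{x ∈ Q | r < dist x z} : ℝ) / #Q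

def TAIL_s : Prop := ∀ (Q : Finset ℂ) (K : Finset K4) (ε : ℝ) (z : ℂ) (L : ℝ), KS Q K ε →
  TT Q z L ≤ 1 / 4 → TT Q z (3 * L) ≤ ε

def DISC_s : Prop := ∀ Q : Finset ℂ, 2 ≤ #Q → ∃ (z : ℂ) (L : ℝ), 0 < L ∧ TT Q z L ≤ 1 / 4 ∧
  ∀ (z' : ℂ) (r : ℝ), TT Q z' r ≤ 1 / 4 → L ≤ 2 * r

def CUT_s : Prop := ∀ (Q Q' : Finset ℂ) (K : Finset K4) (ε δ : ℝ), KS Q K ε → Q' ⊆ Q →
  Q'.Nonempty → (1 - δ) * #Q ≤ (#Q' : ℝ) → ∃ K' : Finset K4, KS Q' K' (ε + 8 * δ)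

def AFF_s : Prop := ∀ (Q : Finset ℂ) (K : Finset K4) (ε : ℝ) (z : ℂ) (s : ℝ), KS Q K ε → 0 < s →
  ∃ K' : Finset K4, KS (Q.image fun x => (x - z) / (s : ℂ)) K' ε

/-- Normalised systems. -/
structure NS (ε : ℝ) (Q : Finset ℂ) (K : Finset K4) : Prop where
  ks : KS Q K ε
  mean : ∑ x ∈ Q, x = 0
  var : ∑ x ∈ Q, ‖x‖ ^ 2 = #Q
  sup : ∀ x ∈ Q, ‖x‖ ≤ 36

def NORM_s : Prop := ∀ (Q : Finset ℂ) (K : Finset K4) (ε : ℝ), 0 ≤ ε → ε ≤ 1 / 10 → KS Q K ε →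
  ∃ (Q' : Finset ℂ) (K' : Finset K4), NS (9 * ε) Q' K'

def APP_s : Prop := ∀ (Q : Finset ℂ) (K : Finset K4) (ε M : ℝ) (i : Fin 6) (φ : ℂ × ℂ → ℝ),
  KS Q K ε → 0 ≤ ε → ε ≤ 1 → (∀ x ∈ Q, ∀ y ∈ Q, |φ (x, y)| ≤ M) →
    |(∑ k ∈ K, φ (pr i k)) / #K - (∑ e ∈ Q ×ˢ Q, φ e) / (#Q : ℝ) ^ 2| ≤ 2 * ε * M

def sS (e : ℂ × ℂ) : ℝ := ((‖e.1‖ ^ 2 - ‖e.2‖ ^ 2) / (2 * ‖e.1 - e.2‖)) ^ 2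
def eS (e : ℂ × ℂ) : ℝ := ((e.1.re * e.2.im - e.1.im * e.2.re) / ‖e.1 - e.2‖) ^ 2
def rS (e : ℂ × ℂ) : ℝ := ‖e.1 - e.2‖ ^ 2 / 4

/-- Coordinates in the frame of the axis. -/
structure Fr (k : K4) (c s τ t h d w : ℝ) : Prop where
  cs : c ^ 2 + s ^ 2 = 1
  a1 : k.1.re = (τ + d) * c - h * s ∧ k.1.im = (τ + d) * s + h * c
  a2 : k.2.1.re = (τ - d) * c - h * s ∧ k.2.1.im = (τ - d) * s + h * c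
  b1 : k.2.2.1.re = t * c - (h + w) * s ∧ k.2.2.1.im = t * s + (h + w) * c
  b2 : k.2.2.2.re = t * c - (h - w) * s ∧ k.2.2.2.im = t * s + (h - w) * c
  pa : τ ^ 2 = sS (pr 0 k) ∧ h ^ 2 = eS (pr 0 k) ∧ d ^ 2 = rS (pr 0 k)
  pb : h ^ 2 = sS (pr 1 k) ∧ t ^ 2 = eS (pr 1 k) ∧ w ^ 2 = rS (pr 1 k)

def FRAME_s : Prop := ∀ k : K4, IsK k → ∃ c s τ t h d w : ℝ, Fr k c s τ t h d w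

def PBD_s : Prop := ∀ (x y : ℂ) (M : ℝ), ‖x‖ ≤ M → ‖y‖ ≤ M →
  |sS (x, y)| ≤ M ^ 2 ∧ |eS (x, y)| ≤ M ^ 2 ∧ |rS (x, y)| ≤ M ^ 2

/-! ### The limit functional -/

section
variable {A : Type} [CommRing A] [Algebra ℝ A] (E : A →ₗ[ℝ] ℝ)

def Fn : Prop := E 1 = 1 ∧ ∀ f, 0 ≤ E (f * f)

def Law (m : ℕ → ℕ → ℝ) (p q : A × A) : Prop :=
  ∀ i j k l : ℕ, E (p.1 ^ i * p.2 ^ j * q.1 ^ k * q.2 ^ l) = m i j * m k l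

def QL (q : ℕ → ℕ → ℕ → ℝ) (x y : A × A) : Prop := ∀ i j k : ℕ,
  E ((x.1 ^ 2 + x.2 ^ 2) ^ i * (y.1 ^ 2 + y.2 ^ 2) ^ j * (x.1 * y.1 + x.2 * y.2) ^ k) = q i j k

def Sy (τ t h d w : A) : Prop := ∀ i j k : ℕ,
  E ((τ ^ 2) ^ i * (h ^ 2) ^ j * (d ^ 2) ^ k) = E ((h ^ 2) ^ i * (t ^ 2) ^ j * (w ^ 2) ^ k)

/-- `R` holds for the six pairs. -/
def Six (R : A × A → A × A → Prop) (a a' b b' : A × A) : Prop :=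
  R a a' ∧ R b b' ∧ R a b ∧ R a b' ∧ R a' b ∧ R a' b'

def rot (c s : A) (x : A × A) : A × A := (x.1 * c - x.2 * s, x.1 * s + x.2 * c)

end

structure QF (q : ℕ → ℕ → ℕ → ℝ) : Prop where
  f1 : q 0 0 1 = 0 ∧ q 1 0 0 = 1 ∧ q 0 1 0 = 1 ∧ q 1 0 1 = 0 ∧ q 0 1 1 = 0 ∧ q 1 1 0 = 1
  f2 : 1 / 2 ≤ q 0 0 2 ∧ 0 ≤ q 1 1 1 ∧ q 0 2 0 = q 2 0 0 ∧ q 0 3 0 = q 3 0 0
  f3 : q 2 2 0 = q 2 0 0 ^ 2 ∧ q 2 0 0 ^ 2 / 2 ≤ q 1 1 2 ∧ q 3 1 0 = q 3 0 0 ∧ q 1 3 0 = q 3 0 0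
  f4 : q 0 0 2 = 1 / 2 → q 2 0 2 = q 3 0 0 / 2 ∧ q 0 2 2 = q 3 0 0 / 2

structure KL {A : Type} [CommRing A] [Algebra ℝ A] (E : A →ₗ[ℝ] ℝ) (q : ℕ → ℕ → ℕ → ℝ)
    (τ t h d w : A) : Prop where
  fn : Fn E
  qf : QF q
  six : Six (QL E q) (τ + d, h) (τ - d, h) (t, h + w) (t, h - w)
  sy : Sy E τ t h d w

/-- Ultrafilter limits of averages of bounded functions. -/
def ULT_s : Prop := ∀ K : ℕ → Finset K4, ∃ (S : Subalgebra ℝ (ℕ → K4 → ℝ)) (E : S →ₗ[ℝ] ℝ),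
  (∀ f : ℕ → K4 → ℝ, (∃ C : ℝ, ∀ j, ∀ k ∈ K j, |f j k| ≤ C) → f ∈ S) ∧ ∀ f : S,
    Tendsto (fun j => (∑ k ∈ K j, (f : ℕ → K4 → ℝ) j k) / #(K j)) (hyperfilter ℕ) (𝓝 (E f))

/-- Transfer of pair averages to the limit. -/
def TRA_s : Prop := ∀ (Q : ℕ → Finset ℂ) (K : ℕ → Finset K4), (∀ j : ℕ, NS (1 / (j + 1)) (Q j) (K j)) →
  ∀ (i : Fin 6) (φ : ℂ × ℂ → ℝ) (M a : ℝ), (∀ x y : ℂ, ‖x‖ ≤ 36 → ‖y‖ ≤ 36 → |φ (x, y)| ≤ M) →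
    (Tendsto (fun j => (∑ k ∈ K j, φ (pr i k)) / #(K j)) (hyperfilter ℕ) (𝓝 a) ↔
      Tendsto (fun j => (∑ e ∈ Q j ×ˢ Q j, φ e) / (#(Q j) : ℝ) ^ 2) (hyperfilter ℕ) (𝓝 a))

/-- The limit moments. -/
def MOM_s : Prop := ∀ (Q : ℕ → Finset ℂ) (K : ℕ → Finset K4), (∀ j : ℕ, NS (1 / (j + 1)) (Q j) (K j)) →
  ∃ m : ℕ → ℕ → ℝ, m 0 0 = 1 ∧ m 1 0 = 0 ∧ m 0 1 = 0 ∧ m 2 0 + m 0 2 = 1 ∧ ∀ a b c d : ℕ,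
    Tendsto (fun j => (∑ e ∈ Q j ×ˢ Q j, e.1.re ^ a * e.1.im ^ b * e.2.re ^ c * e.2.im ^ d) /
      (#(Q j) : ℝ) ^ 2) (hyperfilter ℕ) (𝓝 (m a b * m c d))

def LIM_s : Prop := ∀ (Q : ℕ → Finset ℂ) (K : ℕ → Finset K4), (∀ j : ℕ, NS (1 / (j + 1)) (Q j) (K j)) →
  ∃ (S : Subalgebra ℝ (ℕ → K4 → ℝ)) (E : S →ₗ[ℝ] ℝ) (m : ℕ → ℕ → ℝ) (c s τ t h d w : S),
    Fn E ∧ c ^ 2 + s ^ 2 = 1 ∧ m 0 0 = 1 ∧ m 1 0 = 0 ∧ m 0 1 = 0 ∧ m 2 0 + m 0 2 = 1 ∧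
      Six (Law E m) (rot c s (τ + d, h)) (rot c s (τ - d, h)) (rot c s (t, h + w))
        (rot c s (t, h - w)) ∧ Sy E τ t h d w

def QQ_s : Prop := ∀ m : ℕ → ℕ → ℝ, m 0 0 = 1 → m 1 0 = 0 → m 0 1 = 0 → m 2 0 + m 0 2 = 1 →
  ∃ q : ℕ → ℕ → ℕ → ℝ, QF q ∧ ∀ (A : Type) [CommRing A] [Algebra ℝ A] (E : A →ₗ[ℝ] ℝ)
    (x y : A × A), Law E m x y → QL E q x y

def NULL_s : Prop := ∀ (A : Type) [CommRing A] [Algebra ℝ A] (E : A →ₗ[ℝ] ℝ), Fn E →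
  ∀ f g : A, E (f * f) = 0 → E (f * g) = 0

def RIG_s : Prop := ∀ (A : Type) [CommRing A] [Algebra ℝ A] (E : A →ₗ[ℝ] ℝ) (q : ℕ → ℕ → ℕ → ℝ)
  (τ t h d w : A), KL E q τ t h d w → KL E q τ (-τ) h d w

def DEG_s : Prop := ∀ (A : Type) [CommRing A] [Algebra ℝ A] (E : A →ₗ[ℝ] ℝ) (q : ℕ → ℕ → ℕ → ℝ)
  (τ h d w : A), KL E q τ (-τ) h d w → q 0 0 2 = 1 / 2 ∧ q 2 0 0 = 4 / 3 ∧
    E (h * τ * (h * τ)) = 0 ∧ E (h ^ 2 * d ^ 2) = 1 / 8 ∧ q 0 0 3 = 0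

def CIR_s : Prop := ∀ (A : Type) [CommRing A] [Algebra ℝ A] (E : A →ₗ[ℝ] ℝ) (q : ℕ → ℕ → ℕ → ℝ)
  (τ h d w : A), KL E q τ (-τ) h d w → q 3 0 0 = 16 / 9

def END_s : Prop := ∀ (A : Type) [CommRing A] [Algebra ℝ A] (E : A →ₗ[ℝ] ℝ) (q : ℕ → ℕ → ℕ → ℝ)
  (τ h d w : A), KL E q τ (-τ) h d w → False

def NOL_s : Prop := ∀ (Q : ℕ → Finset ℂ) (K : ℕ → Finset K4),
  (∀ j : ℕ, NS (1 / (j + 1)) (Q j) (K j)) → False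

def TOP_s : Prop := ∃ c : ℝ, 0 < c ∧ ∃ n₀ : ℕ, ∀ P : Finset ℂ, n₀ ≤ #P → GP P →
  (1 / 3 + c) * (#P : ℝ) ^ 2 < ∑ a ∈ P, (#((P.erase a).image (dist a)) : ℝ)

end

end Pool.Agent.K56
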