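import Pool.Agent.MP_e70dc0_co.K56.Defs

namespace Pool.Agent.K56

section
variable {A : Type} [CommRing A] [Algebra ℝ A]

/-- Step (6): arithmetic in the null ideal. -/
theorem end_core (E : A →ₗ[ℝ] ℝ) (t h d w R : A)
    (e1 : ∀ g, E (h * t * g) = 0)
    (e2 : ∀ g, E (h * ((t + d) ^ 2 + h ^ 2 - R) * g) = 0)
    (e3 : ∀ g, E ((h + w) * ((-t) ^ 2 + (h + w) ^ 2 - R) * g) = 0)
    (e4 : ∀ g, E ((h - w) * ((-t) ^ 2 + (h - w) ^ 2 - R) * g) = 0) :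
    2 * E (h ^ 2 * d ^ 2 * (d ^ 2 - h ^ 2)) = E (R * (h ^ 2 * d ^ 2)) := by
  have key : 4 * (2 * (h ^ 2 * d ^ 2 * (d ^ 2 - h ^ 2)) - R * (h ^ 2 * d ^ 2)) =
      h * ((t + d) ^ 2 + h ^ 2 - R) * (8 * h * d ^ 2 - 4 * h * (4 * h ^ 2 - R)) +
      (h + w) * ((-t) ^ 2 + (h + w) ^ 2 - R) *
        (h * (2 * (4 * h ^ 2 - R) - 9 * h * w + 3 * w ^ 2)) +
      (h - w) * ((-t) ^ 2 + (h - w) ^ 2 - R) *
        (h * (2 * (4 * h ^ 2 - R) + 9 * h * w + 3 * w ^ 2)) +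
      h * t * (-(t + 2 * d) * (8 * h * d ^ 2 - 4 * h * (4 * h ^ 2 - R))
        - (h + w) * t * (2 * (4 * h ^ 2 - R) - 9 * h * w + 3 * w ^ 2)
        - (h - w) * t * (2 * (4 * h ^ 2 - R) + 9 * h * w + 3 * w ^ 2)) := by
    ring
  have k2 := congrArg E key
  rw [map_add, map_add, map_add, e1, e2, e3, e4] at k2
  have e : (4 : A) * (2 * (h ^ 2 * d ^ 2 * (d ^ 2 - h ^ 2)) - R * (h ^ 2 * d ^ 2)) =
      (8 : ℝ) • (h ^ 2 * d ^ 2 * (d ^ 2 - h ^ 2)) - (4 : ℝ) • (R * (h ^ 2 * d ^ 2)) := by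
    simp only [Algebra.smul_def, map_ofNat]
    ring
  rw [e, map_sub, map_smul, map_smul] at k2
  simp only [smul_eq_mul] at k2
  linarith

/-- A point with moments `1, 4/3, 16/9` of its squared norm lies on the circle or at `0`. -/
theorem end_pt (hN : NULL_s) (E : A →ₗ[ℝ] ℝ) (hE : Fn E) (u v : A)
    (h1 : E (u ^ 2 + v ^ 2) = 1) (h2 : E ((u ^ 2 + v ^ 2) ^ 2) = 4 / 3)
    (h3 : E ((u ^ 2 + v ^ 2) ^ 3) = 16 / 9) (g : A) :
    E (v * (u ^ 2 + v ^ 2 - algebraMap ℝ A (4 / 3)) * g) = 0 := by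
  refine hN A E hE _ g ?_
  have e : u * (u ^ 2 + v ^ 2 - algebraMap ℝ A (4 / 3)) *
        (u * (u ^ 2 + v ^ 2 - algebraMap ℝ A (4 / 3))) +
      v * (u ^ 2 + v ^ 2 - algebraMap ℝ A (4 / 3)) *
        (v * (u ^ 2 + v ^ 2 - algebraMap ℝ A (4 / 3))) =
      (u ^ 2 + v ^ 2) ^ 3 - (4 / 3 : ℝ) • (u ^ 2 + v ^ 2) ^ 2 - (4 / 3 : ℝ) • (u ^ 2 + v ^ 2) ^ 2 +
        (4 / 3 : ℝ) • (4 / 3 : ℝ) • (u ^ 2 + v ^ 2) := by
    simp only [Algebra.smul_def]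
    ring
  have k := congrArg E e
  rw [map_add, map_add, map_sub, map_sub, map_smul, map_smul, map_smul, h1, h2, h3] at k
  simp only [smul_eq_mul] at k
  have p1 := hE.2 (u * (u ^ 2 + v ^ 2 - algebraMap ℝ A (4 / 3)))
  have p2 := hE.2 (v * (u ^ 2 + v ^ 2 - algebraMap ℝ A (4 / 3)))
  linarith

end

theorem end_row (hN : NULL_s) (hD : DEG_s) (hC : CIR_s) : END_s := by
  intro A _ _ E q τ h d w H
  obtain ⟨-, q2, ht, hd, q003⟩ := hD A E q τ h d w H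
  have q3 := hC A E q τ h d w H
  obtain ⟨ha, hb, -⟩ := H.six
  obtain ⟨-, f100, f010, -⟩ := H.qf.f1
  obtain ⟨-, f111, f020, f030⟩ := H.qf.f2
  have a1 := ha 1 0 0
  have a2 := ha 2 0 0
  have a3 := ha 3 0 0
  have b1 := hb 1 0 0
  have b2 := hb 2 0 0
  have b3 := hb 3 0 0
  have c1 := hb 0 1 0
  have c2 := hb 0 2 0
  have c3 := hb 0 3 0
  have p3 := ha 0 0 3
  have p1 := ha 1 1 1
  simp only [pow_zero, mul_one, one_mul, pow_one] at a1 a2 a3 b1 b2 b3 c1 c2 c3 p3 p1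
  have e1 : ∀ g, E (h * τ * g) = 0 := fun g => hN A E H.fn _ g ht
  have k := end_core E τ h d w (algebraMap ℝ A (4 / 3)) e1
    (end_pt hN E H.fn _ _ (a1.trans f100) (a2.trans q2) (a3.trans q3))
    (end_pt hN E H.fn _ _ (b1.trans f100) (b2.trans q2) (b3.trans q3))
    (end_pt hN E H.fn _ _ (c1.trans f010) (c2.trans (f020.trans q2)) (c3.trans (f030.trans q3)))
  rw [← Algebra.smul_def, map_smul, hd, smul_eq_mul] at k
  have e : ((τ + d) * (τ - d) + h * h) ^ 3 =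
      ((τ + d) ^ 2 + h ^ 2) * ((τ - d) ^ 2 + h ^ 2) * ((τ + d) * (τ - d) + h * h) +
        (4 : ℝ) • (h ^ 2 * d ^ 2 * (d ^ 2 - h ^ 2)) - h * τ * (4 * h * τ * d ^ 2) := by
    simp only [Algebra.smul_def, map_ofNat]
    ring
  rw [e, map_sub, map_add, map_smul, e1, p1, smul_eq_mul] at p3
  linarith

end Pool.Agent.K56
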