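import Pool.Agent.MP_e70dc0_co.K56.Defs

/-! Row FIB: the six projections of the kites are at most two to one. -/

namespace Pool.Agent.K56

open Finset Filter Topology

theorem fib_sq (a b c d : ℂ) : dist a b = dist c d ↔
    (a.re - b.re) ^ 2 + (a.im - b.im) ^ 2 = (c.re - d.re) ^ 2 + (c.im - d.im) ^ 2 := by
  rw [Complex.dist_eq_re_im, Complex.dist_eq_re_im, Real.sqrt_inj (by positivity) (by positivity)]

theorem fib_col {p q x y z : ℂ} (h : p ≠ q)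
    (hy : (y.re - x.re) * (p.re - q.re) + (y.im - x.im) * (p.im - q.im) = 0)
    (hz : (z.re - x.re) * (p.re - q.re) + (z.im - x.im) * (p.im - q.im) = 0) :
    Collinear ℝ {x, y, z} := by
  have h0 : (p.re - q.re) ^ 2 + (p.im - q.im) ^ 2 ≠ 0 := by
    intro e
    apply h
    apply Complex.ext <;> nlinarith [sq_nonneg (p.re - q.re), sq_nonneg (p.im - q.im)]
  have key : ∀ u : ℂ, (u.re - x.re) * (p.re - q.re) + (u.im - x.im) * (p.im - q.im) = 0 →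
      ∃ r : ℝ, u = r • (⟨-(p.im - q.im), p.re - q.re⟩ : ℂ) +ᵥ x := by
    intro u hu
    refine ⟨((u.im - x.im) * (p.re - q.re) - (u.re - x.re) * (p.im - q.im)) /
      ((p.re - q.re) ^ 2 + (p.im - q.im) ^ 2), ?_⟩
    apply Complex.ext
    · simp only [vadd_eq_add, Complex.add_re, Complex.smul_re, smul_eq_mul]
      field_simp
      linear_combination (p.re - q.re) * hu
    · simp only [vadd_eq_add, Complex.add_im, Complex.smul_im, smul_eq_mul]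
      field_simp
      linear_combination (p.im - q.im) * hu
  rw [collinear_iff_of_mem (p₀ := x) (by simp)]
  refine ⟨⟨-(p.im - q.im), p.re - q.re⟩, fun u hu => ?_⟩
  rcases hu with rfl | rfl | rfl
  · exact key _ (by ring)
  · exact key _ hy
  · exact key _ hz

/-- at most two apexes -/
theorem fib_U {P : Finset ℂ} (hP : GP P) {b b' a x y : ℂ} (hb : b ≠ b') (ha : a ∈ P) (hx : x ∈ P)
    (hy : y ∈ P) (e1 : dist a b = dist a b') (e2 : dist x b = dist x b')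
    (e3 : dist y b = dist y b') (n1 : a ≠ x) (n2 : a ≠ y) : x = y := by
  by_contra n3
  rw [fib_sq] at e1 e2 e3
  exact hP.1 a ha x hx y hy n1 n2 n3 (fib_col hb (by linarith) (by linarith))

/-- the mirror image is unique -/
theorem fib_V {P : Finset ℂ} (hP : GP P) {a a' b x y : ℂ} (ha : a ≠ a') (hb : b ∈ P) (hx : x ∈ P)
    (hy : y ∈ P) (e1 : dist a b = dist a x) (e2 : dist a' b = dist a' x)
    (e3 : dist a b = dist a y) (e4 : dist a' b = dist a' y) (n1 : b ≠ x) (n2 : b ≠ y) :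
    x = y := by
  by_contra n3
  rw [fib_sq] at e1 e2 e3 e4
  exact hP.1 b hb x hx y hy n1 n2 n3 (fib_col ha (by linarith) (by linarith))

/-- a line bisects one pair only -/
theorem fib_W {P : Finset ℂ} (hP : GP P) {a a' b b' c c' : ℂ} (ha : a ≠ a') (hb : b ∈ P)
    (hb' : b' ∈ P) (hc : c ∈ P) (hc' : c' ∈ P) (e1 : dist a b = dist a b')
    (e2 : dist a' b = dist a' b') (e3 : dist a c = dist a c') (e4 : dist a' c = dist a' c')
    (n1 : b ≠ b') (n2 : c ≠ c') (n3 : b ≠ c) : b' = c := by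
  by_contra n4
  have n5 : b ≠ c' := by
    rintro rfl
    exact n4 (fib_V hP ha hb hb' hc e1 e2 e3.symm e4.symm n1 n3)
  have n6 : b' ≠ c' := by
    rintro rfl
    exact n3 (fib_V hP ha hb' hb hc e1.symm e2.symm e3.symm e4.symm n1.symm n4)
  rw [fib_sq] at e1 e2 e3 e4
  by_cases h0 : (c.re - b.re) * (a.re - a'.re) + (c.im - b.im) * (a.im - a'.im) = 0
  · exact hP.1 b hb b' hb' c hc n1 n3 n4 (fib_col ha (by linarith) h0)
  · obtain ⟨t, ht⟩ : ∃ t : ℝ,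
        2 * t * ((c.re - b.re) * (a.re - a'.re) + (c.im - b.im) * (a.im - a'.im)) =
          (a.re - c.re) ^ 2 + (a.im - c.im) ^ 2 - ((a.re - b.re) ^ 2 + (a.im - b.im) ^ 2) :=
      ⟨((a.re - c.re) ^ 2 + (a.im - c.im) ^ 2 - ((a.re - b.re) ^ 2 + (a.im - b.im) ^ 2)) /
        (2 * ((c.re - b.re) * (a.re - a'.re) + (c.im - b.im) * (a.im - a'.im))), by field_simp⟩
    have h3 := hP.2 ⟨a.re + t * (a.re - a'.re), a.im + t * (a.im - a'.im)⟩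
      (dist b ⟨a.re + t * (a.re - a'.re), a.im + t * (a.im - a'.im)⟩)
    have h4 : ({b, b', c, c'} : Finset ℂ) ⊆ {x ∈ P |
        dist x ⟨a.re + t * (a.re - a'.re), a.im + t * (a.im - a'.im)⟩ =
          dist b ⟨a.re + t * (a.re - a'.re), a.im + t * (a.im - a'.im)⟩} := by
      intro x hx
      simp only [mem_insert, mem_singleton] at hx
      rw [mem_filter, fib_sq]
      rcases hx with rfl | rfl | rfl | rfl
      · exact ⟨hb, rfl⟩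
      · exact ⟨hb', by linear_combination (-1 - t) * e1 + t * e2⟩
      · exact ⟨hc, by linear_combination -ht⟩
      · exact ⟨hc', by linear_combination -ht + (-1 - t) * e3 + t * e4⟩
    have h5 := card_le_card h4
    rw [card_insert_of_notMem (by simp [n1, n3, n5]), card_insert_of_notMem (by simp [n4, n6]),
      card_pair n2] at h5
    omega

theorem fib_mem {P : Finset ℂ} {k : K4} (h : k ∈ KT P) :
    (k.1 ∈ P ∧ k.2.1 ∈ P ∧ k.2.2.1 ∈ P ∧ k.2.2.2 ∈ P) ∧ IsK k := by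
  simpa only [KT, mem_filter, mem_product] using h

theorem fib_two {α : Type} [DecidableEq α] (s : Finset α)
    (h : ∀ x ∈ s, ∀ y ∈ s, ∀ z ∈ s, x ≠ y → x ≠ z → y = z) : #s ≤ 2 := by
  by_contra hn
  obtain ⟨x, y, z, hx, hy, hz, n1, n2, n3⟩ := two_lt_card_iff.1 (not_le.1 hn)
  exact n3 (h x hx y hy z hz n1 n2)

/-- three points of a circle about `a` other than `b` cannot be distinct -/
theorem fib_C {P : Finset ℂ} (hP : GP P) {a b x y z : ℂ} (hb : b ∈ P) (hx : x ∈ P) (hy : y ∈ P)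
    (hz : z ∈ P) (e1 : dist a b = dist a x) (e2 : dist a b = dist a y) (e3 : dist a b = dist a z)
    (n1 : b ≠ x) (n2 : b ≠ y) (n3 : b ≠ z) (n4 : x ≠ y) (n5 : x ≠ z) : y = z := by
  by_contra n6
  have h3 := hP.2 a (dist a b)
  have h4 : ({b, x, y, z} : Finset ℂ) ⊆ {u ∈ P | dist u a = dist a b} := by
    intro u hu
    simp only [mem_insert, mem_singleton] at hu
    rw [mem_filter, dist_comm u a]
    rcases hu with rfl | rfl | rfl | rfl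
    · exact ⟨hb, rfl⟩
    · exact ⟨hx, e1.symm⟩
    · exact ⟨hy, e2.symm⟩
    · exact ⟨hz, e3.symm⟩
  have h5 := card_le_card h4
  rw [card_insert_of_notMem (by simp [n1, n2, n3]), card_insert_of_notMem (by simp [n4, n5]),
    card_pair n6] at h5
  omega

/-- the cross projection, for triples `(other apex, other base point)` -/
theorem fib_X {P : Finset ℂ} (hP : GP P) {a b a₁ a₂ a₃ b₁ b₂ b₃ : ℂ} (ha : a ∈ P) (hb : b ∈ P)
    (h1 : a₁ ∈ P ∧ b₁ ∈ P ∧ a ≠ a₁ ∧ b ≠ b₁ ∧ dist a b = dist a b₁ ∧ dist a₁ b = dist a₁ b₁)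
    (h2 : a₂ ∈ P ∧ b₂ ∈ P ∧ a ≠ a₂ ∧ b ≠ b₂ ∧ dist a b = dist a b₂ ∧ dist a₂ b = dist a₂ b₂)
    (h3 : a₃ ∈ P ∧ b₃ ∈ P ∧ a ≠ a₃ ∧ b ≠ b₃ ∧ dist a b = dist a b₃ ∧ dist a₃ b = dist a₃ b₃)
    (n1 : ¬(a₁ = a₂ ∧ b₁ = b₂)) (n2 : ¬(a₁ = a₃ ∧ b₁ = b₃)) : a₂ = a₃ ∧ b₂ = b₃ := by
  obtain ⟨p1, p2, p3, p4, p5, p6⟩ := h1
  obtain ⟨q1, q2, q3, q4, q5, q6⟩ := h2
  obtain ⟨r1, r2, r3, r4, r5, r6⟩ := h3
  have m1 : b₁ ≠ b₂ := by
    rintro rfl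
    exact n1 ⟨fib_U hP p4 ha p1 q1 p5 p6 q6 p3 q3, rfl⟩
  have m2 : b₁ ≠ b₃ := by
    rintro rfl
    exact n2 ⟨fib_U hP p4 ha p1 r1 p5 p6 r6 p3 r3, rfl⟩
  obtain rfl := fib_C hP hb p2 q2 r2 p5 q5 r5 p4 q4 r4 m1 m2
  exact ⟨fib_U hP q4 ha q1 r1 q5 q6 r6 q3 r3, rfl⟩

theorem fib_row : FIB_s := by
  intro P hP i e
  classical
  refine fib_two _ ?_
  rintro ⟨a, a', b, b'⟩ hx ⟨c, c', d, d'⟩ hy ⟨f, f', g, g'⟩ hz n1 n2
  rw [mem_filter] at hx hy hz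
  obtain ⟨⟨p1, p2, p3, p4⟩, p5, p6, p7, p8⟩ := fib_mem hx.1
  obtain ⟨⟨q1, q2, q3, q4⟩, q5, q6, q7, q8⟩ := fib_mem hy.1
  obtain ⟨⟨r1, r2, r3, r4⟩, r5, r6, r7, r8⟩ := fib_mem hz.1
  have u1 := hx.2.trans hy.2.symm
  have u2 := hx.2.trans hz.2.symm
  dsimp only at p1 p2 p3 p4 p5 p6 p7 p8 q1 q2 q3 q4 q5 q6 q7 q8 r1 r2 r3 r4 r5 r6 r7 r8
  simp only [ne_eq, Prod.mk.injEq] at n1 n2 ⊢
  fin_cases i
  · obtain ⟨rfl, rfl⟩ : a = c ∧ a' = c' := by simpa [pr] using u1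
    obtain ⟨rfl, rfl⟩ : a = f ∧ a' = f' := by simpa [pr] using u2
    have m1 : b ≠ d := by
      rintro rfl
      exact n1 ⟨rfl, rfl, rfl, fib_V hP p5 p3 p4 q4 p7 p8 q7 q8 p6 q6⟩
    have m2 : b ≠ g := by
      rintro rfl
      exact n2 ⟨rfl, rfl, rfl, fib_V hP p5 p3 p4 r4 p7 p8 r7 r8 p6 r6⟩
    obtain rfl := fib_W hP p5 p3 p4 q3 q4 p7 p8 q7 q8 p6 q6 m1
    obtain rfl := fib_W hP p5 p3 p4 r3 r4 p7 p8 r7 r8 p6 r6 m2
    exact ⟨rfl, rfl, rfl, fib_V hP p5 p4 q4 r4 q7 q8 r7 r8 q6 r6⟩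
  · obtain ⟨rfl, rfl⟩ : b = d ∧ b' = d' := by simpa [pr] using u1
    obtain ⟨rfl, rfl⟩ : b = g ∧ b' = g' := by simpa [pr] using u2
    have m1 : a ≠ c := by
      rintro rfl
      exact n1 ⟨rfl, fib_U hP p6 p1 p2 q2 p7 p8 q8 p5 q5, rfl, rfl⟩
    have m2 : a ≠ f := by
      rintro rfl
      exact n2 ⟨rfl, fib_U hP p6 p1 p2 r2 p7 p8 r8 p5 r5, rfl, rfl⟩
    obtain rfl := fib_U hP p6 p1 q1 r1 p7 q7 r7 m1 m2
    exact ⟨rfl, fib_U hP p6 q1 q2 r2 q7 q8 r8 q5 r5, rfl, rfl⟩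
  · obtain ⟨rfl, rfl⟩ : a = c ∧ b = d := by simpa [pr] using u1
    obtain ⟨rfl, rfl⟩ : a = f ∧ b = g := by simpa [pr] using u2
    have := fib_X hP p1 p3 ⟨p2, p4, p5, p6, p7, p8⟩ ⟨q2, q4, q5, q6, q7, q8⟩
      ⟨r2, r4, r5, r6, r7, r8⟩ (fun h => n1 ⟨rfl, h.1, rfl, h.2⟩) fun h => n2 ⟨rfl, h.1, rfl, h.2⟩
    exact ⟨rfl, this.1, rfl, this.2⟩
  · obtain ⟨rfl, rfl⟩ : a = c ∧ b' = d' := by simpa [pr] using u1
    obtain ⟨rfl, rfl⟩ : a = f ∧ b' = g' := by simpa [pr] using u2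
    have := fib_X hP p1 p4 ⟨p2, p3, p5, p6.symm, p7.symm, p8.symm⟩
      ⟨q2, q3, q5, q6.symm, q7.symm, q8.symm⟩ ⟨r2, r3, r5, r6.symm, r7.symm, r8.symm⟩
      (fun h => n1 ⟨rfl, h.1, h.2, rfl⟩) fun h => n2 ⟨rfl, h.1, h.2, rfl⟩
    exact ⟨rfl, this.1, this.2, rfl⟩
  · obtain ⟨rfl, rfl⟩ : a' = c' ∧ b = d := by simpa [pr] using u1
    obtain ⟨rfl, rfl⟩ : a' = f' ∧ b = g := by simpa [pr] using u2
    have := fib_X hP p2 p3 ⟨p1, p4, p5.symm, p6, p8, p7⟩ ⟨q1, q4, q5.symm, q6, q8, q7⟩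
      ⟨r1, r4, r5.symm, r6, r8, r7⟩ (fun h => n1 ⟨h.1, rfl, rfl, h.2⟩)
      fun h => n2 ⟨h.1, rfl, rfl, h.2⟩
    exact ⟨this.1, rfl, rfl, this.2⟩
  · obtain ⟨rfl, rfl⟩ : a' = c' ∧ b' = d' := by simpa [pr] using u1
    obtain ⟨rfl, rfl⟩ : a' = f' ∧ b' = g' := by simpa [pr] using u2
    have := fib_X hP p2 p4 ⟨p1, p3, p5.symm, p6.symm, p8.symm, p7.symm⟩
      ⟨q1, q3, q5.symm, q6.symm, q8.symm, q7.symm⟩ ⟨r1, r3, r5.symm, r6.symm, r8.symm, r7.symm⟩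
      (fun h => n1 ⟨h.1, rfl, h.2, rfl⟩) fun h => n2 ⟨h.1, rfl, h.2, rfl⟩
    exact ⟨this.1, rfl, this.2, rfl⟩

end Pool.Agent.K56
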