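import Pool.Agent.MP_e70dc0_co.K56.Defs

namespace Pool.Agent.K56

open Finset Filter Topology

theorem frame_sq (z : ℂ) : ‖z‖ ^ 2 = z.re ^ 2 + z.im ^ 2 := by
  rw [Complex.sq_norm, Complex.normSq_apply]
  ring

theorem frame_ex (x1 y1 x2 y2 p1 q1 p2 q2 D : ℝ) (hD : 0 < D)
    (hD2 : D ^ 2 = (x1 - x2) ^ 2 + (y1 - y2) ^ 2) (hb : ¬(p1 = p2 ∧ q1 = q2))
    (H1 : (x1 - p1) ^ 2 + (y1 - q1) ^ 2 = (x1 - p2) ^ 2 + (y1 - q2) ^ 2)
    (H2 : (x2 - p1) ^ 2 + (y2 - q1) ^ 2 = (x2 - p2) ^ 2 + (y2 - q2) ^ 2) :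
    ∃ c s τ t h d w : ℝ, c ^ 2 + s ^ 2 = 1 ∧ d ≠ 0 ∧ w ≠ 0 ∧
      (x1 = (τ + d) * c - h * s ∧ y1 = (τ + d) * s + h * c) ∧
      (x2 = (τ - d) * c - h * s ∧ y2 = (τ - d) * s + h * c) ∧
      (p1 = t * c - (h + w) * s ∧ q1 = t * s + (h + w) * c) ∧
      (p2 = t * c - (h - w) * s ∧ q2 = t * s + (h - w) * c) := by
  obtain ⟨c, hc⟩ : ∃ c, x1 - x2 = D * c := ⟨(x1 - x2) / D, by field_simp⟩
  obtain ⟨s, hs⟩ : ∃ s, y1 - y2 = D * s := ⟨(y1 - y2) / D, by field_simp⟩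
  have cs : c ^ 2 + s ^ 2 = 1 := by
    refine mul_left_cancel₀ (pow_pos hD 2).ne' ?_
    rw [hc, hs] at hD2
    linear_combination -hD2
  have hT : (p1 - p2) * c + (q1 - q2) * s = 0 := by
    refine mul_left_cancel₀ hD.ne' ?_
    linear_combination (-1 / 2) * H1 + (1 / 2) * H2 - (p1 - p2) * hc - (q1 - q2) * hs
  have hv : (-p1 * s + q1 * c) - (-p2 * s + q2 * c) ≠ 0 := by
    intro h0
    apply hb
    constructor
    · linear_combination c * hT - s * h0 - (p1 - p2) * cs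
    · linear_combination s * hT + c * h0 - (q1 - q2) * cs
  have hm : (-p1 * s + q1 * c) + (-p2 * s + q2 * c) - 2 * (-x1 * s + y1 * c) = 0 := by
    refine mul_left_cancel₀ hv ?_
    linear_combination H1 - ((p1 + p2 - 2 * x1) * c + (q1 + q2 - 2 * y1) * s) * hT +
      ((x1 - p1) ^ 2 + (y1 - q1) ^ 2 - (x1 - p2) ^ 2 - (y1 - q2) ^ 2) * cs
  refine ⟨c, s, x1 * c + y1 * s - D / 2, p1 * c + q1 * s, -x1 * s + y1 * c, D / 2,
    (-p1 * s + q1 * c) - (-x1 * s + y1 * c), cs, by positivity, fun h0 => hv ?_, ⟨?_, ?_⟩,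
    ⟨?_, ?_⟩, ⟨?_, ?_⟩, ?_, ?_⟩
  · linear_combination 2 * h0 - hm
  · linear_combination (-x1) * cs
  · linear_combination (-y1) * cs
  · linear_combination (-x1) * cs - hc
  · linear_combination (-y1) * cs - hs
  · linear_combination (-p1) * cs
  · linear_combination (-q1) * cs
  · linear_combination (-p2) * cs - c * hT - s * hm
  · linear_combination (-q2) * cs - s * hT + c * hm

theorem frame_row : FRAME_s := by
  rintro ⟨a1, a2, b, b'⟩ ⟨h1, h2, h3, h4⟩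
  dsimp only at h1 h2 h3 h4
  have sq : ∀ x y z : ℂ, dist x y = dist x z →
      (x.re - y.re) ^ 2 + (x.im - y.im) ^ 2 = (x.re - z.re) ^ 2 + (x.im - z.im) ^ 2 := by
    intro x y z h
    have e1 := frame_sq (x - y)
    have e2 := frame_sq (x - z)
    rw [dist_eq_norm, dist_eq_norm] at h
    rw [h, e2] at e1
    simpa only [Complex.sub_re, Complex.sub_im] using e1.symm
  obtain ⟨c, s, τ, t, h, d, w, cs, hd, hw, ⟨e1, e2⟩, ⟨e3, e4⟩, ⟨e5, e6⟩, e7, e8⟩ :=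
    frame_ex a1.re a1.im a2.re a2.im b.re b.im b'.re b'.im ‖a1 - a2‖
      (norm_pos_iff.2 (sub_ne_zero.2 h1))
      (by simpa only [Complex.sub_re, Complex.sub_im] using frame_sq (a1 - a2))
      (fun e => h2 (Complex.ext e.1 e.2)) (sq _ _ _ h3) (sq _ _ _ h4)
  have n1 : ‖a1‖ ^ 2 - ‖a2‖ ^ 2 = 4 * τ * d := by
    rw [frame_sq, frame_sq, e1, e2, e3, e4]
    linear_combination (4 * τ * d) * cs
  have n2 : ‖a1 - a2‖ ^ 2 = 4 * d ^ 2 := by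
    rw [frame_sq, Complex.sub_re, Complex.sub_im, e1, e2, e3, e4]
    linear_combination (4 * d ^ 2) * cs
  have n3 : a1.re * a2.im - a1.im * a2.re = 2 * d * h := by
    rw [e1, e2, e3, e4]
    linear_combination (2 * d * h) * cs
  have m1 : ‖b‖ ^ 2 - ‖b'‖ ^ 2 = 4 * h * w := by
    rw [frame_sq, frame_sq, e5, e6, e7, e8]
    linear_combination (4 * h * w) * cs
  have m2 : ‖b - b'‖ ^ 2 = 4 * w ^ 2 := by
    rw [frame_sq, Complex.sub_re, Complex.sub_im, e5, e6, e7, e8]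
    linear_combination (4 * w ^ 2) * cs
  have m3 : b.re * b'.im - b.im * b'.re = -2 * t * w := by
    rw [e5, e6, e7, e8]
    linear_combination (-2 * t * w) * cs
  refine ⟨c, s, τ, t, h, d, w, cs, ⟨e1, e2⟩, ⟨e3, e4⟩, ⟨e5, e6⟩, ⟨e7, e8⟩, ⟨?_, ?_, ?_⟩,
    ?_, ?_, ?_⟩
  · show τ ^ 2 = ((‖a1‖ ^ 2 - ‖a2‖ ^ 2) / (2 * ‖a1 - a2‖)) ^ 2
    rw [div_pow, mul_pow, n1, n2]
    field_simp
    ring
  · show h ^ 2 = ((a1.re * a2.im - a1.im * a2.re) / ‖a1 - a2‖) ^ 2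
    rw [div_pow, n3, n2]
    field_simp
    ring
  · show d ^ 2 = ‖a1 - a2‖ ^ 2 / 4
    rw [n2]
    ring
  · show h ^ 2 = ((‖b‖ ^ 2 - ‖b'‖ ^ 2) / (2 * ‖b - b'‖)) ^ 2
    rw [div_pow, mul_pow, m1, m2]
    field_simp
    ring
  · show t ^ 2 = ((b.re * b'.im - b.im * b'.re) / ‖b - b'‖) ^ 2
    rw [div_pow, m3, m2]
    field_simp
    ring
  · show w ^ 2 = ‖b - b'‖ ^ 2 / 4
    rw [m2]
    ring

end Pool.Agent.K56
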