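import Pool.Agent.MP_e70dc0_co.K56.Defs

namespace Pool.Agent.K56

open Finset Filter Topology

theorem lim_abs {x y : ℝ} (h : x ^ 2 = y) (hy : |y| ≤ 36 ^ 2) : |x| ≤ 36 :=
  abs_le_of_sq_le_sq' (h ▸ (le_abs_self y).trans hy) (by norm_num) |> abs_le.2

theorem lim_mul {x y a b : ℝ} (hx : |x| ≤ a) (hy : |y| ≤ b) : |x * y| ≤ a * b := by
  rw [abs_mul]
  exact mul_le_mul hx hy (abs_nonneg _) ((abs_nonneg _).trans hx)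

theorem lim_pow {x a : ℝ} (hx : |x| ≤ a) (n : ℕ) : |x ^ n| ≤ a ^ n := by
  rw [abs_pow]
  exact pow_le_pow_left₀ (abs_nonneg _) hx n

theorem lim_row (hULT : ULT_s) (hTRA : TRA_s) (hMOM : MOM_s) (hFRAME : FRAME_s) (hPBD : PBD_s) :
    LIM_s := by
  intro Q K hN
  obtain ⟨S, E, hS, hE⟩ := hULT K
  obtain ⟨m, m0, m1, m2, m3, hm⟩ := hMOM Q K hN
  have hfr : ∀ k : K4, ∃ c s τ t h d w : ℝ, c ^ 2 + s ^ 2 = 1 ∧ (IsK k → Fr k c s τ t h d w) := by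
    intro k
    by_cases hk : IsK k
    · obtain ⟨c, s, τ, t, h, d, w, H⟩ := hFRAME k hk
      exact ⟨c, s, τ, t, h, d, w, H.cs, fun _ => H⟩
    · exact ⟨1, 0, 0, 0, 0, 0, 0, by norm_num, fun h => absurd h hk⟩
  choose c s τ t h d w hcs hF using hfr
  have F : ∀ j, ∀ k ∈ K j, Fr k (c k) (s k) (τ k) (t k) (h k) (d k) (w k) :=
    fun j k hk => hF k ((hN j).ks.kite k hk)
  have Ba : ∀ j, ∀ k ∈ K j, |sS (pr 0 k)| ≤ 36 ^ 2 ∧ |eS (pr 0 k)| ≤ 36 ^ 2 ∧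
      |rS (pr 0 k)| ≤ 36 ^ 2 := fun j k hk =>
    hPBD k.1 k.2.1 36 ((hN j).sup _ ((hN j).ks.mem k hk).1) ((hN j).sup _ ((hN j).ks.mem k hk).2.1)
  have Bb : ∀ j, ∀ k ∈ K j, |sS (pr 1 k)| ≤ 36 ^ 2 ∧ |eS (pr 1 k)| ≤ 36 ^ 2 ∧
      |rS (pr 1 k)| ≤ 36 ^ 2 := fun j k hk =>
    hPBD k.2.2.1 k.2.2.2 36 ((hN j).sup _ ((hN j).ks.mem k hk).2.2.1)
      ((hN j).sup _ ((hN j).ks.mem k hk).2.2.2)
  have hc : (fun (_ : ℕ) k => c k) ∈ S := hS _ ⟨1, fun j k _ =>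
    abs_le_one_iff_mul_self_le_one.2 (by nlinarith [hcs k, sq_nonneg (s k)])⟩
  have hs : (fun (_ : ℕ) k => s k) ∈ S := hS _ ⟨1, fun j k _ =>
    abs_le_one_iff_mul_self_le_one.2 (by nlinarith [hcs k, sq_nonneg (c k)])⟩
  have hτ : (fun (_ : ℕ) k => τ k) ∈ S :=
    hS _ ⟨36, fun j k hk => lim_abs (F j k hk).pa.1 (Ba j k hk).1⟩
  have hh : (fun (_ : ℕ) k => h k) ∈ S :=
    hS _ ⟨36, fun j k hk => lim_abs (F j k hk).pa.2.1 (Ba j k hk).2.1⟩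
  have hd : (fun (_ : ℕ) k => d k) ∈ S :=
    hS _ ⟨36, fun j k hk => lim_abs (F j k hk).pa.2.2 (Ba j k hk).2.2⟩
  have ht : (fun (_ : ℕ) k => t k) ∈ S :=
    hS _ ⟨36, fun j k hk => lim_abs (F j k hk).pb.2.1 (Bb j k hk).2.1⟩
  have hw : (fun (_ : ℕ) k => w k) ∈ S :=
    hS _ ⟨36, fun j k hk => lim_abs (F j k hk).pb.2.2 (Bb j k hk).2.2⟩
  have tr : ∀ (f : S) (i : Fin 6) (φ : ℂ × ℂ → ℝ) (M a : ℝ),
      (∀ x y : ℂ, ‖x‖ ≤ 36 → ‖y‖ ≤ 36 → |φ (x, y)| ≤ M) →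
      (∀ j, ∀ k ∈ K j, (f : ℕ → K4 → ℝ) j k = φ (pr i k)) →
      (E f = a ↔ Tendsto (fun j => (∑ e ∈ Q j ×ˢ Q j, φ e) / (#(Q j) : ℝ) ^ 2) (hyperfilter ℕ)
        (𝓝 a)) := by
    intro f i φ M a hM hf
    have h1 : Tendsto (fun j => (∑ k ∈ K j, φ (pr i k)) / #(K j)) (hyperfilter ℕ) (𝓝 (E f)) :=
      (hE f).congr fun j => by rw [sum_congr rfl (hf j)]
    rw [← hTRA Q K hN i φ M a hM]
    exact ⟨fun e => e ▸ h1, fun h2 => tendsto_nhds_unique h1 h2⟩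
  have law : ∀ (p q : S × S) (i : Fin 6), (∀ j, ∀ k ∈ K j,
      ((pr i k).1.re = (p.1 : ℕ → K4 → ℝ) j k ∧ (pr i k).1.im = (p.2 : ℕ → K4 → ℝ) j k) ∧
        (pr i k).2.re = (q.1 : ℕ → K4 → ℝ) j k ∧ (pr i k).2.im = (q.2 : ℕ → K4 → ℝ) j k) →
      Law E m p q := by
    intro p q i H a b e g
    refine (tr _ i (fun e' => e'.1.re ^ a * e'.1.im ^ b * e'.2.re ^ e * e'.2.im ^ g)
      (36 ^ a * 36 ^ b * 36 ^ e * 36 ^ g) _ (fun x y hx hy => ?_) fun j k hk => ?_).2 (hm a b e g)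
    · exact lim_mul (lim_mul (lim_mul (lim_pow ((Complex.abs_re_le_norm x).trans hx) a)
        (lim_pow ((Complex.abs_im_le_norm x).trans hx) b))
        (lim_pow ((Complex.abs_re_le_norm y).trans hy) e))
        (lim_pow ((Complex.abs_im_le_norm y).trans hy) g)
    · obtain ⟨⟨e1, e2⟩, e3, e4⟩ := H j k hk
      simp only [e1, e2, e3, e4]
      rfl
  refine ⟨S, E, m, ⟨_, hc⟩, ⟨_, hs⟩, ⟨_, hτ⟩, ⟨_, ht⟩, ⟨_, hh⟩, ⟨_, hd⟩, ⟨_, hw⟩, ⟨?_, fun f => ?_⟩,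
    Subtype.ext (funext fun j => funext fun k => hcs k), m0, m1, m2, m3,
    ⟨law _ _ 0 fun j k hk => ⟨(F j k hk).a1, (F j k hk).a2⟩,
      law _ _ 1 fun j k hk => ⟨(F j k hk).b1, (F j k hk).b2⟩,
      law _ _ 2 fun j k hk => ⟨(F j k hk).a1, (F j k hk).b1⟩,
      law _ _ 3 fun j k hk => ⟨(F j k hk).a1, (F j k hk).b2⟩,
      law _ _ 4 fun j k hk => ⟨(F j k hk).a2, (F j k hk).b1⟩,
      law _ _ 5 fun j k hk => ⟨(F j k hk).a2, (F j k hk).b2⟩⟩, fun a b e => ?_⟩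
  · have h1 := hm 0 0 0 0
    rw [m0, mul_one] at h1
    exact (tr 1 0 (fun e' => e'.1.re ^ 0 * e'.1.im ^ 0 * e'.2.re ^ 0 * e'.2.im ^ 0) 1 1
      (fun x y _ _ => by simp) fun j k _ => by simp).2 h1
  · exact ge_of_tendsto' (hE (f * f)) fun j =>
      div_nonneg (sum_nonneg fun k _ => mul_self_nonneg ((f : ℕ → K4 → ℝ) j k)) (Nat.cast_nonneg _)
  · have hM : ∀ x y : ℂ, ‖x‖ ≤ 36 → ‖y‖ ≤ 36 →
        |(fun e' => sS e' ^ a * eS e' ^ b * rS e' ^ e) (x, y)| ≤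
          (36 ^ 2) ^ a * (36 ^ 2) ^ b * (36 ^ 2) ^ e := fun x y hx hy =>
      lim_mul (lim_mul (lim_pow (hPBD x y 36 hx hy).1 a) (lim_pow (hPBD x y 36 hx hy).2.1 b))
        (lim_pow (hPBD x y 36 hx hy).2.2 e)
    refine (tr _ 0 (fun e' => sS e' ^ a * eS e' ^ b * rS e' ^ e) _ _ hM fun j k hk => ?_).2
      ((tr _ 1 (fun e' => sS e' ^ a * eS e' ^ b * rS e' ^ e) _ _ hM fun j k hk => ?_).1 rfl)
    · obtain ⟨e1, e2, e3⟩ := (F j k hk).pa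
      simp only [← e1, ← e2, ← e3]
      rfl
    · obtain ⟨e1, e2, e3⟩ := (F j k hk).pb
      simp only [← e1, ← e2, ← e3]
      rfl

end Pool.Agent.K56
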