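import Pool.Agent.MP_e70dc0_co.K56.Defs

namespace Pool.Agent.K56

open Finset Filter Topology

theorem mom_ex (g : ℕ → ℝ) (C : ℝ) (h : ∀ j, |g j| ≤ C) :
    ∃ a, Tendsto g (hyperfilter ℕ) (𝓝 a) := by
  obtain ⟨a, -, ha⟩ := (isCompact_Icc (a := -C) (b := C)).ultrafilter_le_nhds
    (Ultrafilter.map g (hyperfilter ℕ))
    (le_principal_iff.2 (Filter.mem_map.2 (Filter.univ_mem' fun j => abs_le.1 (h j))))
  exact ⟨a, ha⟩

theorem mom_avg {α : Type} (K : Finset α) (hK : K.Nonempty) (f : α → ℝ) (C : ℝ)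
    (h : ∀ k ∈ K, |f k| ≤ C) : |(∑ k ∈ K, f k) / #K| ≤ C := by
  have hp : (0 : ℝ) < #K := Nat.cast_pos.2 hK.card_pos
  rw [abs_div, abs_of_pos hp, div_le_iff₀ hp]
  refine (abs_sum_le_sum_abs _ _).trans ?_
  refine (sum_le_card_nsmul K _ C h).trans ?_
  rw [nsmul_eq_mul, mul_comm]

theorem mom_row : MOM_s := by
  intro Q K h
  have hne : ∀ j, (Q j).Nonempty := fun j => (h j).ks.ne
  have hp : ∀ j, (0 : ℝ) < #(Q j) := fun j => Nat.cast_pos.2 (hne j).card_pos
  have hex : ∀ a b : ℕ, ∃ v, Tendsto (fun j => (∑ x ∈ Q j, x.re ^ a * x.im ^ b) / #(Q j))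
      (hyperfilter ℕ) (𝓝 v) := fun a b =>
    mom_ex _ (36 ^ a * 36 ^ b) fun j => mom_avg (Q j) (hne j) _ _ fun x hx => by
      have h1 : |x.re| ≤ 36 := (Complex.abs_re_le_norm x).trans ((h j).sup x hx)
      have h2 : |x.im| ≤ 36 := (Complex.abs_im_le_norm x).trans ((h j).sup x hx)
      rw [abs_mul, abs_pow, abs_pow]
      exact mul_le_mul (pow_le_pow_left₀ (abs_nonneg _) h1 a)
        (pow_le_pow_left₀ (abs_nonneg _) h2 b) (by positivity) (by positivity)
  choose m hm using hex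
  refine ⟨m, ?_, ?_, ?_, ?_, fun a b c d => ((hm a b).mul (hm c d)).congr fun j => ?_⟩
  · refine tendsto_nhds_unique (hm 0 0) (tendsto_const_nhds.congr fun j => ?_)
    simp only [pow_zero, mul_one, sum_const, nsmul_eq_mul]
    exact (div_self (hp j).ne').symm
  · refine tendsto_nhds_unique (hm 1 0) (tendsto_const_nhds.congr fun j => ?_)
    simp only [pow_zero, mul_one, pow_one]
    rw [← Complex.re_sum, (h j).mean, Complex.zero_re, zero_div]
  · refine tendsto_nhds_unique (hm 0 1) (tendsto_const_nhds.congr fun j => ?_)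
    simp only [pow_zero, one_mul, pow_one]
    rw [← Complex.im_sum, (h j).mean, Complex.zero_im, zero_div]
  · refine tendsto_nhds_unique ((hm 2 0).add (hm 0 2)) (tendsto_const_nhds.congr fun j => ?_)
    simp only [pow_zero, one_mul, mul_one]
    rw [← add_div, ← sum_add_distrib, eq_div_iff (hp j).ne', one_mul, ← (h j).var]
    refine sum_congr rfl fun x _ => ?_
    rw [Complex.sq_norm, Complex.normSq_apply]
    ring
  · rw [div_mul_div_comm, ← sq, sum_mul_sum, sum_product]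
    refine congrArg (· / (#(Q j) : ℝ) ^ 2) (sum_congr rfl fun x _ => sum_congr rfl fun y _ => ?_)
    ring

end Pool.Agent.K56
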