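import Pool.Agent.MP_e70dc0_co.K56.Defs

namespace Pool.Agent.K56

open Finset Filter Topology

theorem null_row : NULL_s := by
  intro A _ _ E hE f g hf
  by_contra h
  have h1 := hE.2 ((-(E (g * g) + 1) / (2 * E (f * g))) • f + g)
  have h2 : ∀ x : ℝ, (x • f + g) * (x • f + g) =
      (x * x) • (f * f) + (2 * x) • (f * g) + g * g := fun x => by
    simp only [Algebra.smul_def, map_mul, map_ofNat]
    ring
  rw [h2, map_add, map_add, map_smul, map_smul, hf, smul_eq_mul, smul_eq_mul, mul_zero,
    zero_add] at h1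
  have h3 : 2 * (-(E (g * g) + 1) / (2 * E (f * g))) * E (f * g) = -(E (g * g) + 1) := by
    field_simp
  rw [h3] at h1
  linarith

end Pool.Agent.K56
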