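import Pool.Agent.MP_e70dc0_co.K56.Defs

namespace Pool.Agent.K56

open Finset Filter Topology

theorem pbd_div {a D M : ℝ} (h : a ^ 2 ≤ M ^ 2 * D ^ 2) : |(a / D) ^ 2| ≤ M ^ 2 := by
  rw [abs_of_nonneg (sq_nonneg _), div_pow]
  exact div_le_of_le_mul₀ (sq_nonneg _) (sq_nonneg _) h

theorem pbd_row : PBD_s := by
  intro x y M hx hy
  have x0 := norm_nonneg x
  have y0 := norm_nonneg y
  have d0 := norm_nonneg (x - y)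
  have sq : ∀ z : ℂ, ‖z‖ ^ 2 = z.re ^ 2 + z.im ^ 2 := fun z => by
    rw [Complex.sq_norm, Complex.normSq_apply]
    ring
  refine ⟨pbd_div ?_, pbd_div ?_, ?_⟩
  · show (‖x‖ ^ 2 - ‖y‖ ^ 2) ^ 2 ≤ M ^ 2 * (2 * ‖x - y‖) ^ 2
    have h1 : (‖x‖ - ‖y‖) ^ 2 ≤ ‖x - y‖ ^ 2 := by
      rw [← sq_abs]
      exact pow_le_pow_left₀ (abs_nonneg _) (abs_norm_sub_norm_le x y) 2
    have h2 : (‖x‖ + ‖y‖) ^ 2 ≤ (2 * M) ^ 2 := pow_le_pow_left₀ (by linarith) (by linarith) 2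
    calc (‖x‖ ^ 2 - ‖y‖ ^ 2) ^ 2 = (‖x‖ + ‖y‖) ^ 2 * (‖x‖ - ‖y‖) ^ 2 := by ring
      _ ≤ (2 * M) ^ 2 * ‖x - y‖ ^ 2 := mul_le_mul h2 h1 (sq_nonneg _) (sq_nonneg _)
      _ = _ := by ring
  · show (x.re * y.im - x.im * y.re) ^ 2 ≤ M ^ 2 * ‖x - y‖ ^ 2
    have h1 : ‖x‖ ^ 2 ≤ M ^ 2 := pow_le_pow_left₀ x0 hx 2
    refine le_trans ?_ (mul_le_mul_of_nonneg_right h1 (sq_nonneg _))
    rw [sq, sq, Complex.sub_re, Complex.sub_im]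
    nlinarith [sq_nonneg (x.re * (x.re - y.re) + x.im * (x.im - y.im))]
  · show |‖x - y‖ ^ 2 / 4| ≤ M ^ 2
    rw [abs_of_nonneg (by positivity)]
    have h1 : ‖x - y‖ ≤ 2 * M := (norm_sub_le x y).trans (by linarith)
    have h2 := pow_le_pow_left₀ d0 h1 2
    linarith [show (2 * M) ^ 2 = 4 * M ^ 2 by ring]

end Pool.Agent.K56
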