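import Pool.Agent.MP_e70dc0_co.K56.Defs

namespace Pool.Agent.K56

open Finset Filter Topology

/-- The rotation invariant moments in terms of the moments `m`. -/
def qq_q (m : ℕ → ℕ → ℝ) (i j k : ℕ) : ℝ :=
  ∑ a ∈ range (i + 1), ∑ b ∈ range (j + 1), ∑ c ∈ range (k + 1),
    ((i.choose a * j.choose b * k.choose c : ℕ) : ℝ) *
      (m (2 * a + c) (2 * (i - a) + (k - c)) * m (2 * b + c) (2 * (j - b) + (k - c)))

theorem qq_law {A : Type} [CommRing A] [Algebra ℝ A] (E : A →ₗ[ℝ] ℝ) (m : ℕ → ℕ → ℝ)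
    (x y : A × A) (h : Law E m x y) : QL E (qq_q m) x y := by
  intro i j k
  rw [add_pow, add_pow, add_pow, sum_mul_sum, sum_mul, map_sum]
  refine sum_congr rfl fun a _ => ?_
  rw [sum_mul, map_sum]
  refine sum_congr rfl fun b _ => ?_
  rw [mul_sum, map_sum]
  refine sum_congr rfl fun c _ => ?_
  rw [← h, ← nsmul_eq_mul (i.choose a * j.choose b * k.choose c), ← map_nsmul, nsmul_eq_mul]
  refine congrArg E ?_
  push_cast
  simp only [pow_add, pow_mul, mul_pow]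
  ring

theorem qq_a (a b : ℝ) : 1 / 2 ≤ a ^ 2 + 2 * b ^ 2 + (1 - a) ^ 2 := by
  nlinarith [sq_nonneg b, sq_nonneg (2 * a - 1)]

theorem qq_b (a b c d : ℝ) :
    ((a + 2 * b + c) * 1) ^ 2 / 2 ≤ (a + b) ^ 2 + 2 * d ^ 2 + (b + c) ^ 2 := by
  nlinarith [sq_nonneg d, sq_nonneg (a - c)]

theorem qq_c (a b : ℝ) (h : a ^ 2 + 2 * b ^ 2 + (1 - a) ^ 2 = 1 / 2) : b = 0 ∧ a = 1 / 2 := by
  have h1 : b ^ 2 = 0 := by nlinarith [sq_nonneg b, sq_nonneg (2 * a - 1)]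
  have h2 : (2 * a - 1) ^ 2 = 0 := by nlinarith [sq_nonneg b, sq_nonneg (2 * a - 1)]
  have h3 := (pow_eq_zero_iff two_ne_zero).1 h2
  exact ⟨(pow_eq_zero_iff two_ne_zero).1 h1, by linarith⟩

theorem qq_row : QQ_s := by
  intro m h0 h1 h2 h3
  refine ⟨qq_q m, ?_, fun A _ _ E x y h => qq_law E m x y h⟩
  have e001 : qq_q m 0 0 1 = m 1 0 ^ 2 + m 0 1 ^ 2 := by
    simp [qq_q, sum_range_succ]; ring
  have e100 : qq_q m 1 0 0 = (m 2 0 + m 0 2) * m 0 0 := by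
    simp [qq_q, sum_range_succ]; ring
  have e010 : qq_q m 0 1 0 = (m 2 0 + m 0 2) * m 0 0 := by
    simp [qq_q, sum_range_succ]; ring
  have e101 : qq_q m 1 0 1 = (m 3 0 + m 1 2) * m 1 0 + (m 2 1 + m 0 3) * m 0 1 := by
    simp [qq_q, sum_range_succ]; ring
  have e011 : qq_q m 0 1 1 = (m 3 0 + m 1 2) * m 1 0 + (m 2 1 + m 0 3) * m 0 1 := by
    simp [qq_q, sum_range_succ]; ring
  have e110 : qq_q m 1 1 0 = (m 2 0 + m 0 2) ^ 2 := by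
    simp [qq_q, sum_range_succ]; ring
  have e002 : qq_q m 0 0 2 = m 2 0 ^ 2 + 2 * m 1 1 ^ 2 + m 0 2 ^ 2 := by
    simp [qq_q, sum_range_succ, Nat.choose]; ring
  have e111 : qq_q m 1 1 1 = (m 3 0 + m 1 2) ^ 2 + (m 2 1 + m 0 3) ^ 2 := by
    simp [qq_q, sum_range_succ]; ring
  have e200 : qq_q m 2 0 0 = (m 4 0 + 2 * m 2 2 + m 0 4) * m 0 0 := by
    simp [qq_q, sum_range_succ, Nat.choose]; ring
  have e020 : qq_q m 0 2 0 = (m 4 0 + 2 * m 2 2 + m 0 4) * m 0 0 := by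
    simp [qq_q, sum_range_succ, Nat.choose]; ring
  have e300 : qq_q m 3 0 0 = (m 6 0 + 3 * m 4 2 + 3 * m 2 4 + m 0 6) * m 0 0 := by
    simp [qq_q, sum_range_succ, Nat.choose]; ring
  have e030 : qq_q m 0 3 0 = (m 6 0 + 3 * m 4 2 + 3 * m 2 4 + m 0 6) * m 0 0 := by
    simp [qq_q, sum_range_succ, Nat.choose]; ring
  have e220 : qq_q m 2 2 0 = (m 4 0 + 2 * m 2 2 + m 0 4) ^ 2 := by
    simp [qq_q, sum_range_succ, Nat.choose]; ring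
  have e112 : qq_q m 1 1 2 =
      (m 4 0 + m 2 2) ^ 2 + 2 * (m 3 1 + m 1 3) ^ 2 + (m 2 2 + m 0 4) ^ 2 := by
    simp [qq_q, sum_range_succ, Nat.choose]; ring
  have e310 : qq_q m 3 1 0 = (m 6 0 + 3 * m 4 2 + 3 * m 2 4 + m 0 6) * (m 2 0 + m 0 2) := by
    simp [qq_q, sum_range_succ, Nat.choose]; ring
  have e130 : qq_q m 1 3 0 = (m 6 0 + 3 * m 4 2 + 3 * m 2 4 + m 0 6) * (m 2 0 + m 0 2) := by
    simp [qq_q, sum_range_succ, Nat.choose]; ring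
  have e202 : qq_q m 2 0 2 = (m 6 0 + 2 * m 4 2 + m 2 4) * m 2 0 +
      2 * (m 5 1 + 2 * m 3 3 + m 1 5) * m 1 1 + (m 4 2 + 2 * m 2 4 + m 0 6) * m 0 2 := by
    simp [qq_q, sum_range_succ, Nat.choose]; ring
  have e022 : qq_q m 0 2 2 = (m 6 0 + 2 * m 4 2 + m 2 4) * m 2 0 +
      2 * (m 5 1 + 2 * m 3 3 + m 1 5) * m 1 1 + (m 4 2 + 2 * m 2 4 + m 0 6) * m 0 2 := by
    simp [qq_q, sum_range_succ, Nat.choose]; ring
  have h4 : m 0 2 = 1 - m 2 0 := by rw [← h3]; ring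
  refine ⟨⟨?_, ?_, ?_, ?_, ?_, ?_⟩, ⟨?_, ?_, ?_, ?_⟩, ⟨?_, ?_, ?_, ?_⟩, fun hk => ?_⟩
  · rw [e001, h1, h2]; ring
  · rw [e100, h3, h0]; ring
  · rw [e010, h3, h0]; ring
  · rw [e101, h1, h2]; ring
  · rw [e011, h1, h2]; ring
  · rw [e110, h3]; ring
  · rw [e002, h4]; exact qq_a _ _
  · rw [e111]; positivity
  · rw [e020, e200]
  · rw [e030, e300]
  · rw [e220, e200, h0]; ring
  · rw [e112, e200, h0]
    exact qq_b _ _ _ _
  · rw [e310, e300, h0, h3]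
  · rw [e130, e300, h0, h3]
  · rw [e002, h4] at hk
    obtain ⟨k1, k2⟩ := qq_c _ _ hk
    rw [e202, e022, e300, h0, h4, k1, k2]
    constructor <;> ring

end Pool.Agent.K56
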