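import Pool.Agent.MP_e70dc0_co.K56.Defs

namespace Pool.Agent.K56

open Finset Filter Topology

theorem rig_eq (hN : NULL_s) {A : Type} [CommRing A] [Algebra ℝ A] (E : A →ₗ[ℝ] ℝ) (hE : Fn E)
    {u : A} (hu : E (u * u) = 0) {a b : A}
    (h : Ideal.Quotient.mk (Ideal.span {u}) a = Ideal.Quotient.mk (Ideal.span {u}) b) :
    E a = E b := by
  obtain ⟨g, hg⟩ := Ideal.mem_span_singleton.1 (Ideal.Quotient.eq.1 h)
  have h1 := hN A E hE u g hu
  rwa [← hg, map_sub, sub_eq_zero] at h1

theorem rig_row (hN : NULL_s) : RIG_s := by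
  intro A _ _ E q τ t h d w hK
  obtain ⟨hE, hq, ⟨s1, s2, s3, s4, s5, s6⟩, hs⟩ := hK
  have a1 := s3 0 0 1
  have a2 := s6 0 0 1
  have a3 := hs 1 0 0
  have a4 := hs 0 1 0
  rw [hq.f1.1] at a1 a2
  simp only [pow_zero, pow_one, one_mul, mul_one] at a1 a2 a3 a4
  have hu : E ((τ + t) * (τ + t)) = 0 := by
    have e : (τ + t) * (τ + t) = ((τ + d) * t + h * (h + w)) + ((τ - d) * t + h * (h - w)) +
        (τ ^ 2 - h ^ 2) - (h ^ 2 - t ^ 2) := by ring
    rw [e, map_sub, map_add, map_add, map_sub, map_sub, a1, a2, a3, a4]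
    simp
  have ht : Ideal.Quotient.mk (Ideal.span {τ + t}) τ =
      -Ideal.Quotient.mk (Ideal.span {τ + t}) t := by
    rw [eq_neg_iff_add_eq_zero, ← map_add, Ideal.Quotient.eq_zero_iff_mem]
    exact Ideal.mem_span_singleton_self _
  refine ⟨hE, hq, ⟨s1, fun i j k => ?_, fun i j k => ?_, fun i j k => ?_, fun i j k => ?_,
    fun i j k => ?_⟩, fun i j k => ?_⟩
  · rw [← s2 i j k]
    exact rig_eq hN E hE hu (by simp only [map_mul, map_pow, map_add, map_neg, ht, neg_neg])
  · rw [← s3 i j k]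
    exact rig_eq hN E hE hu (by simp only [map_mul, map_pow, map_add, map_neg, ht, neg_neg])
  · rw [← s4 i j k]
    exact rig_eq hN E hE hu (by simp only [map_mul, map_pow, map_add, map_neg, ht, neg_neg])
  · rw [← s5 i j k]
    exact rig_eq hN E hE hu
      (by simp only [map_mul, map_pow, map_add, map_sub, map_neg, ht, neg_neg])
  · rw [← s6 i j k]
    exact rig_eq hN E hE hu
      (by simp only [map_mul, map_pow, map_add, map_sub, map_neg, ht, neg_neg])
  · rw [hs i j k]
    exact rig_eq hN E hE hu (by simp only [map_mul, map_pow, map_neg, ht, neg_neg])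

end Pool.Agent.K56
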