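import Pool.Agent.MP_e70dc0_co.K56.Defs

namespace Pool.Agent.K56

open Finset Filter Topology

theorem tail_fib {Q : Finset ℂ} {K : Finset K4} {ε : ℝ} (h : KS Q K ε) (i : Fin 6)
    (K' : Finset K4) (hK : K' ⊆ K) (T : Finset (ℂ × ℂ)) (hT : ∀ k ∈ K', pr i k ∈ T) :
    #K' ≤ 2 * #T :=
  card_le_mul_card_image_of_maps_to hT 2 fun e _ =>
    (card_le_card (filter_subset_filter _ hK)).trans (h.fib i e)

theorem tail_row : TAIL_s := by
  intro Q K ε z L h hT
  unfold TT at hT ⊢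
  have hn : (0 : ℝ) < #Q := by exact_mod_cast h.ne.card_pos
  rw [div_le_iff₀ hn] at hT ⊢
  have hI := card_filter_add_card_filter_not (s := Q) (fun x => L < dist x z)
  have hK := card_filter_add_card_filter_not (s := K)
    (fun k => pr 2 k ∈ {x ∈ Q | ¬L < dist x z} ×ˢ {x ∈ Q | 3 * L < dist x z})
  have hsub : {x ∈ Q | ¬L < dist x z} ×ˢ {x ∈ Q | 3 * L < dist x z} ⊆ Q ×ˢ Q :=
    product_subset_product (filter_subset _ _) (filter_subset _ _)
  have h1 := tail_fib h 1 _ (filter_subset (fun k => pr 2 k ∈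
      {x ∈ Q | ¬L < dist x z} ×ˢ {x ∈ Q | 3 * L < dist x z}) K)
    ({x ∈ Q | 3 * L < dist x z} ×ˢ {x ∈ Q | L < dist x z}) (fun k hk => by
      obtain ⟨hk, h2⟩ := mem_filter.mp hk
      obtain ⟨h3, h4⟩ := mem_product.mp h2
      have h5 : ¬L < dist k.1 z := (mem_filter.mp h3).2
      have h6 : 3 * L < dist k.2.2.1 z := (mem_filter.mp h4).2
      refine mem_product.mpr ⟨h4, mem_filter.mpr ⟨(h.mem k hk).2.2.2, ?_⟩⟩
      have h7 := (h.kite k hk).2.2.1
      have h8 := dist_triangle_left k.2.2.1 z k.1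
      have h9 := dist_triangle_right k.1 k.2.2.2 z
      show L < dist k.2.2.2 z
      linarith [not_lt.mp h5])
  have h2 := tail_fib h 2 _ (filter_subset (fun k => ¬pr 2 k ∈
      {x ∈ Q | ¬L < dist x z} ×ˢ {x ∈ Q | 3 * L < dist x z}) K)
    (Q ×ˢ Q \ {x ∈ Q | ¬L < dist x z} ×ˢ {x ∈ Q | 3 * L < dist x z}) (fun k hk => by
      obtain ⟨hk, h2⟩ := mem_filter.mp hk
      exact mem_sdiff.mpr ⟨mem_product.mpr ⟨(h.mem k hk).1, (h.mem k hk).2.2.1⟩, h2⟩)
  have h3 := card_sdiff_add_card_eq_card hsub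
  rw [card_product] at h1
  rw [card_product, card_product] at h3
  have h4 : #K + 2 * (#{x ∈ Q | ¬L < dist x z} * #{x ∈ Q | 3 * L < dist x z}) ≤
      2 * (#Q * #Q) + 2 * (#{x ∈ Q | 3 * L < dist x z} * #{x ∈ Q | L < dist x z}) := by omega
  have h5 : (#K : ℝ) + 2 * (#{x ∈ Q | ¬L < dist x z} * #{x ∈ Q | 3 * L < dist x z}) ≤
      2 * (#Q * #Q) + 2 * (#{x ∈ Q | 3 * L < dist x z} * #{x ∈ Q | L < dist x z}) := by
    exact_mod_cast h4
  have hI' : (#{x ∈ Q | L < dist x z} : ℝ) + #{x ∈ Q | ¬L < dist x z} = #Q := by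
    exact_mod_cast hI
  have hb := h.big
  have hF : (0 : ℝ) ≤ #{x ∈ Q | 3 * L < dist x z} := Nat.cast_nonneg _
  generalize (#{x ∈ Q | 3 * L < dist x z} : ℝ) = F at *
  generalize (#{x ∈ Q | L < dist x z} : ℝ) = O at *
  generalize (#{x ∈ Q | ¬L < dist x z} : ℝ) = I at *
  generalize (#Q : ℝ) = n at *
  refine le_of_mul_le_mul_right ?_ hn
  nlinarith [mul_nonneg hF (show 0 ≤ I - O - n / 2 by linarith)]

theorem disc_row : DISC_s := by
  intro Q hQ
  have hn : (2 : ℝ) ≤ #Q := by exact_mod_cast hQ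
  have key : ∀ (z' : ℂ) (r : ℝ), TT Q z' r ≤ 1 / 4 →
      ∃ e ∈ {e ∈ Q ×ˢ Q | TT Q e.1 (dist e.2 e.1) ≤ 1 / 4}, dist e.2 e.1 ≤ 2 * r := by
    intro z' r h
    have hJ : ({x ∈ Q | ¬r < dist x z'} : Finset ℂ).Nonempty := by
      rw [filter_nonempty_iff]
      by_contra hc
      have : {x ∈ Q | r < dist x z'} = Q :=
        filter_true_of_mem fun x hx => not_not.mp fun h' => hc ⟨x, hx, h'⟩
      unfold TT at h
      rw [this, div_self (by linarith)] at h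
      norm_num at h
    obtain ⟨y, hy⟩ := hJ
    obtain ⟨x, hx, hm⟩ := exists_max_image _ (fun u => dist u y) ⟨y, hy⟩
    rw [mem_filter] at hx hy
    refine ⟨(y, x), mem_filter.mpr ⟨mem_product.mpr ⟨hy.1, hx.1⟩, le_trans ?_ h⟩, ?_⟩
    · unfold TT
      refine div_le_div_of_nonneg_right ?_ (by linarith)
      refine Nat.cast_le.mpr (card_le_card fun u hu => ?_)
      rw [mem_filter] at hu ⊢
      exact ⟨hu.1, not_not.mp fun h' => not_le.mpr hu.2 (hm u (mem_filter.mpr ⟨hu.1, h'⟩))⟩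
    · have := dist_triangle_right x y z'
      show dist x y ≤ 2 * r
      linarith [not_lt.mp hx.2, not_lt.mp hy.2]
  obtain ⟨R, hR⟩ : ∃ R : ℝ, ∀ x ∈ Q, dist x 0 ≤ R := by
    obtain ⟨x, -, hx⟩ := exists_max_image Q (fun u => dist u 0) (card_pos.mp (by omega))
    exact ⟨_, hx⟩
  obtain ⟨e0, he0, -⟩ := key 0 R (by
    unfold TT
    rw [filter_false_of_mem fun x hx => not_lt.mpr (hR x hx)]
    norm_num)
  obtain ⟨e, he, hm⟩ := exists_min_image _ (fun e : ℂ × ℂ => dist e.2 e.1) ⟨e0, he0⟩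
  have hT := (mem_filter.mp he).2
  refine ⟨e.1, dist e.2 e.1, lt_of_le_of_ne dist_nonneg fun h0 => ?_, hT, fun z' r h => ?_⟩
  · rw [← h0] at hT
    unfold TT at hT
    rw [div_le_iff₀ (by linarith)] at hT
    have h1 : Q.erase e.1 ⊆ {x ∈ Q | 0 < dist x e.1} := fun x hx =>
      mem_filter.mpr ⟨mem_of_mem_erase hx, dist_pos.mpr (ne_of_mem_erase hx)⟩
    have h2 := (pred_card_le_card_erase (s := Q) (a := e.1)).trans (card_le_card h1)
    have h3 : #Q ≤ #{x ∈ Q | 0 < dist x e.1} + 1 := by omega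
    have h4 : (#Q : ℝ) ≤ #{x ∈ Q | 0 < dist x e.1} + 1 := by exact_mod_cast h3
    linarith
  · obtain ⟨e', he', h1⟩ := key z' r h
    exact (hm e' he').trans h1

end Pool.Agent.K56
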