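import Pool.Agent.MP_e70dc0_co.K56.Defs

namespace Pool.Agent.K56

open Finset Filter Topology

theorem tra_row (hA : APP_s) : TRA_s := by
  intro Q K h i φ M a hφ
  refine tendsto_iff_of_dist ?_
  have h0 : Tendsto (fun j : ℕ => 2 * (1 / ((j : ℝ) + 1)) * M) (hyperfilter ℕ) (𝓝 0) := by
    have h1 := (tendsto_one_div_add_atTop_nhds_zero_nat (𝕜 := ℝ)).const_mul 2 |>.mul_const M
    rw [mul_zero, zero_mul] at h1
    exact h1.mono_left Nat.hyperfilter_le_atTop
  refine squeeze_zero (fun j => dist_nonneg) (fun j => ?_) h0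
  rw [Real.dist_eq]
  have hj : (0 : ℝ) ≤ j := Nat.cast_nonneg j
  refine hA (Q j) (K j) _ M i φ (h j).ks (by positivity) ?_
    fun x hx y hy => hφ x y ((h j).sup x hx) ((h j).sup y hy)
  rw [div_le_one (by linarith)]
  linarith

end Pool.Agent.K56
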