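import Pool.Agent.MP_e70dc0_co.K56.Defs

namespace Pool.Agent.K56

open Finset Filter Topology

theorem ult_ex (g : ℕ → ℝ) (C : ℝ) (h : ∀ j, |g j| ≤ C) :
    ∃ a, Tendsto g (hyperfilter ℕ) (𝓝 a) := by
  obtain ⟨a, -, ha⟩ := (isCompact_Icc (a := -C) (b := C)).ultrafilter_le_nhds
    (Ultrafilter.map g (hyperfilter ℕ))
    (le_principal_iff.2 (Filter.mem_map.2 (Filter.univ_mem' fun j => abs_le.1 (h j))))
  exact ⟨a, ha⟩

theorem ult_avg {α : Type} (K : Finset α) (f : α → ℝ) (C : ℝ) (h : ∀ k ∈ K, |f k| ≤ C) :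
    |(∑ k ∈ K, f k) / #K| ≤ |C| := by
  rcases K.eq_empty_or_nonempty with rfl | hK
  · simp
  · have hp : (0 : ℝ) < #K := Nat.cast_pos.2 hK.card_pos
    rw [abs_div, abs_of_pos hp, div_le_iff₀ hp]
    refine (abs_sum_le_sum_abs _ _).trans ?_
    refine (sum_le_card_nsmul K _ |C| fun k hk => (h k hk).trans (le_abs_self C)).trans ?_
    rw [nsmul_eq_mul, mul_comm]

theorem ult_row : ULT_s := by
  intro K
  obtain ⟨S, hS⟩ : ∃ S : Subalgebra ℝ (ℕ → K4 → ℝ),
      ∀ f, f ∈ S ↔ ∃ C : ℝ, ∀ j, ∀ k ∈ K j, |f j k| ≤ C := by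
    refine ⟨{ carrier := {f | ∃ C : ℝ, ∀ j, ∀ k ∈ K j, |f j k| ≤ C}
              mul_mem' := ?_
              add_mem' := ?_
              algebraMap_mem' := ?_ }, fun f => Iff.rfl⟩
    · rintro f g ⟨C, hC⟩ ⟨D, hD⟩
      refine ⟨C * D, fun j k hk => ?_⟩
      change |f j k * g j k| ≤ C * D
      rw [abs_mul]
      exact mul_le_mul (hC j k hk) (hD j k hk) (abs_nonneg _) ((abs_nonneg _).trans (hC j k hk))
    · rintro f g ⟨C, hC⟩ ⟨D, hD⟩
      refine ⟨C + D, fun j k hk => ?_⟩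
      change |f j k + g j k| ≤ C + D
      exact (abs_add_le _ _).trans (add_le_add (hC j k hk) (hD j k hk))
    · intro r
      exact ⟨|r|, fun j k _ => le_rfl⟩
  have hex : ∀ f : S, ∃ a, Tendsto (fun j => (∑ k ∈ K j, (f : ℕ → K4 → ℝ) j k) / #(K j))
      (hyperfilter ℕ) (𝓝 a) := fun f => by
    obtain ⟨C, hC⟩ := (hS _).1 f.2
    exact ult_ex _ |C| fun j => ult_avg (K j) _ C (hC j)
  choose e he using hex
  refine ⟨S, { toFun := e, map_add' := fun f g => ?_, map_smul' := fun r f => ?_ },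
    fun f hf => (hS f).2 hf, he⟩
  · refine tendsto_nhds_unique (he (f + g)) (((he f).add (he g)).congr fun j => ?_)
    rw [← add_div, ← sum_add_distrib]
    rfl
  · refine tendsto_nhds_unique (he (r • f)) (((he f).const_mul r).congr fun j => ?_)
    rw [← mul_div_assoc, mul_sum]
    rfl

end Pool.Agent.K56
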