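import Pool.Agent.MP_e70dc0_co.K56.FIB
import Pool.Agent.MP_e70dc0_co.K56.CNT
import Pool.Agent.MP_e70dc0_co.K56.TAIL
import Pool.Agent.MP_e70dc0_co.K56.CUT
import Pool.Agent.MP_e70dc0_co.K56.AFF
import Pool.Agent.MP_e70dc0_co.K56.NORM
import Pool.Agent.MP_e70dc0_co.K56.APP
import Pool.Agent.MP_e70dc0_co.K56.TRA
import Pool.Agent.MP_e70dc0_co.K56.FRAME
import Pool.Agent.MP_e70dc0_co.K56.PBD
import Pool.Agent.MP_e70dc0_co.K56.ULT
import Pool.Agent.MP_e70dc0_co.K56.MOM
import Pool.Agent.MP_e70dc0_co.K56.LIM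
import Pool.Agent.MP_e70dc0_co.K56.QQ
import Pool.Agent.MP_e70dc0_co.K56.NULL
import Pool.Agent.MP_e70dc0_co.K56.RIG
import Pool.Agent.MP_e70dc0_co.K56.DEG
import Pool.Agent.MP_e70dc0_co.K56.CIR
import Pool.Agent.MP_e70dc0_co.K56.END
import Pool.Agent.MP_e70dc0_co.K56.TOP

namespace Pool.Agent.K56

theorem top : TOP_s :=
  top_row fib_row cnt_row (norm_row tail_row disc_row cut_row aff_row)
    (nol_row (lim_row ult_row (tra_row app_row) mom_row frame_row pbd_row) qq_row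
      (rig_row null_row)
      (end_row null_row (deg_row null_row) (cir_row null_row (deg_row null_row))))

end Pool.Agent.K56
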